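import Mathlib

set_option autoImplicit false

/-!
# Weighted sums
-/

namespace Pool.Agent.L7h47.DP

open Finset Filter Topology MeasureTheory

noncomputable section

/-- partial sums -/
def PS (c : ℕ → ℝ) (x : ℝ) : ℝ := ∑ d ∈ Icc 1 ⌊Real.exp x⌋₊, c d

theorem PS_mono {c : ℕ → ℝ} (hc : ∀ d, 0 ≤ c d) : Monotone (PS c) := fun _ _ h =>
  sum_le_sum_of_subset_of_nonneg (Icc_subset_Icc_right (Nat.floor_mono (Real.exp_le_exp.2 h)))
    fun _ _ _ => hc _

theorem PS_nonneg {c : ℕ → ℝ} (hc : ∀ d, 0 ≤ c d) (x : ℝ) : 0 ≤ PS c x :=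
  sum_nonneg fun _ _ => hc _

theorem le_exp_iff {d : ℕ} (hd : 1 ≤ d) (x : ℝ) : d ≤ ⌊Real.exp x⌋₊ ↔ Real.log d ≤ x := by
  rw [Nat.le_floor_iff (Real.exp_pos x).le, Real.log_le_iff_le_exp (by exact_mod_cast hd)]

/-- the sum with the weights `ℓ - log d` is an integral -/
theorem sum_eq_int (c : ℕ → ℝ) {l : ℝ} (hl : 0 ≤ l) :
    ∑ d ∈ Icc 1 ⌊Real.exp l⌋₊, c d * (l - Real.log d) = ∫ x in (0 : ℝ)..l, PS c x := by
  have h1 : ∀ x ∈ Set.uIcc 0 l, PS c x =
      ∑ d ∈ Icc 1 ⌊Real.exp l⌋₊, c d * Set.indicator (Set.Ici (Real.log d)) (fun _ => (1 : ℝ)) x := by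
    intro x hx
    rw [Set.uIcc_of_le hl] at hx
    have h2 : ∑ d ∈ Icc 1 ⌊Real.exp l⌋₊,
        c d * Set.indicator (Set.Ici (Real.log d)) (fun _ => (1 : ℝ)) x =
        ∑ d ∈ Icc 1 ⌊Real.exp x⌋₊,
        c d * Set.indicator (Set.Ici (Real.log d)) (fun _ => (1 : ℝ)) x := by
      refine (sum_subset (Icc_subset_Icc_right (Nat.floor_mono (Real.exp_le_exp.2 hx.2))) ?_).symm
      intro d hd hd'
      have h3 : 1 ≤ d := (mem_Icc.1 hd).1
      have h4 : ¬ Real.log d ≤ x := fun h => hd' (mem_Icc.2 ⟨h3, (le_exp_iff h3 x).2 h⟩)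
      rw [Set.indicator_of_notMem (show x ∉ Set.Ici (Real.log d) from h4), mul_zero]
    rw [h2]
    refine sum_congr rfl fun d hd => ?_
    have h3 : 1 ≤ d := (mem_Icc.1 hd).1
    have h4 : Real.log d ≤ x := (le_exp_iff h3 x).1 (mem_Icc.1 hd).2
    rw [Set.indicator_of_mem (show x ∈ Set.Ici (Real.log d) from h4), mul_one]
  rw [intervalIntegral.integral_congr h1, intervalIntegral.integral_finsetSum]
  · refine sum_congr rfl fun d hd => ?_
    have h3 : 1 ≤ d := (mem_Icc.1 hd).1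
    have h4 : Real.log d ≤ l := (le_exp_iff h3 l).1 (mem_Icc.1 hd).2
    have h5 : 0 ≤ Real.log d := Real.log_natCast_nonneg d
    rw [intervalIntegral.integral_const_mul]
    congr 1
    rw [intervalIntegral.integral_of_le hl, integral_indicator measurableSet_Ici,
      Measure.restrict_restrict measurableSet_Ici]
    rcases h5.eq_or_lt with h6 | h6
    · have : Set.Ici (Real.log d) ∩ Set.Ioc 0 l = Set.Ioc 0 l := by
        rw [← h6]
        exact Set.inter_eq_right.2 fun x hx => hx.1.le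
      rw [this]
      simp [hl, ← h6]
    · have : Set.Ici (Real.log d) ∩ Set.Ioc 0 l = Set.Icc (Real.log d) l := by
        ext x
        exact ⟨fun h => ⟨h.1, h.2.2⟩, fun h => ⟨h.1, h6.trans_le h.1, h.2⟩⟩
      rw [this]
      simp [h4]
  · intro d _
    refine IntervalIntegrable.const_mul ?_ _
    have h8 : IntervalIntegrable (fun _ : ℝ => (1 : ℝ)) volume 0 l := intervalIntegrable_const
    rw [intervalIntegrable_iff] at h8 ⊢
    exact h8.indicator measurableSet_Ici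

theorem asy1 {c : ℕ → ℝ} (hc : ∀ d, 0 ≤ c d) {A x1 : ℝ} (hx1 : 0 ≤ x1)
    (hS : ∀ x, x1 ≤ x → PS c x ≤ A * x ^ (1 / 4 : ℝ)) {l : ℝ} (hl : x1 ≤ l) (hA : 0 ≤ A) :
    ∑ d ∈ Icc 1 ⌊Real.exp l⌋₊, c d * (l - Real.log d) ≤
      x1 * PS c x1 + A * (4 / 5 * l ^ (5 / 4 : ℝ)) := by
  have hl0 : 0 ≤ l := hx1.trans hl
  have hi : ∀ a b, IntervalIntegrable (PS c) volume a b := fun a b =>
    (PS_mono hc).intervalIntegrable
  rw [sum_eq_int c hl0, ← intervalIntegral.integral_add_adjacent_intervals (hi 0 x1) (hi x1 l)]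
  refine add_le_add ?_ ?_
  · calc ∫ x in (0 : ℝ)..x1, PS c x ≤ ∫ _ in (0 : ℝ)..x1, PS c x1 :=
        intervalIntegral.integral_mono_on hx1 (hi _ _) intervalIntegrable_const
          fun x hx => PS_mono hc hx.2
      _ = x1 * PS c x1 := by
        rw [intervalIntegral.integral_const]
        simp
  · have hc2 : ∀ a b : ℝ, IntervalIntegrable (fun x : ℝ => A * x ^ (1 / 4 : ℝ)) volume a b :=
      fun a b => (intervalIntegral.intervalIntegrable_rpow' (by norm_num)).const_mul _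
    calc ∫ x in x1..l, PS c x ≤ ∫ x in x1..l, A * x ^ (1 / 4 : ℝ) :=
        intervalIntegral.integral_mono_on hl (hi _ _) (hc2 _ _) fun x hx => hS x hx.1
      _ ≤ ∫ x in (0 : ℝ)..l, A * x ^ (1 / 4 : ℝ) := by
        rw [← intervalIntegral.integral_add_adjacent_intervals (hc2 0 x1) (hc2 x1 l)]
        have : 0 ≤ ∫ x in (0 : ℝ)..x1, A * x ^ (1 / 4 : ℝ) :=
          intervalIntegral.integral_nonneg hx1 fun x hx =>
            mul_nonneg hA (Real.rpow_nonneg hx.1 _)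
        linarith
      _ = A * (4 / 5 * l ^ (5 / 4 : ℝ)) := by
        rw [intervalIntegral.integral_const_mul, integral_rpow (Or.inl (by norm_num))]
        congr 1
        rw [show (1 / 4 : ℝ) + 1 = 5 / 4 by norm_num, Real.zero_rpow (by norm_num)]
        ring

theorem tendsto_shift {T : ℝ → ℝ} {c : ℝ}
    (hT : Tendsto (fun x : ℝ => T x / x ^ (1 / 4 : ℝ)) atTop (𝓝 c)) (X : ℝ) :
    Tendsto (fun x : ℝ => T (x - X) / x ^ (1 / 4 : ℝ)) atTop (𝓝 c) := by
  have h1 : Tendsto (fun x : ℝ => x - X) atTop atTop := tendsto_atTop_add_const_right _ (-X) tendsto_id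
  have h2 : Tendsto (fun x : ℝ => T (x - X) / (x - X) ^ (1 / 4 : ℝ)) atTop (𝓝 c) := hT.comp h1
  have h3 : Tendsto (fun x : ℝ => (x - X) / x) atTop (𝓝 1) := by
    have h4 : Tendsto (fun x : ℝ => 1 - X / x) atTop (𝓝 (1 - 0)) :=
      tendsto_const_nhds.sub (tendsto_const_nhds.div_atTop tendsto_id)
    rw [sub_zero] at h4
    refine h4.congr' ?_
    filter_upwards [eventually_gt_atTop 0] with x hx
    field_simp
  have h5 : Tendsto (fun x : ℝ => ((x - X) / x) ^ (1 / 4 : ℝ)) atTop (𝓝 1) := by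
    have := h3.rpow_const (p := 1 / 4) (Or.inl one_ne_zero)
    rwa [Real.one_rpow] at this
  have h6 := h2.mul h5
  rw [mul_one] at h6
  refine h6.congr' ?_
  filter_upwards [eventually_gt_atTop 0, eventually_gt_atTop X] with x hx hx'
  have h7 : 0 < x - X := sub_pos.2 hx'
  rw [Real.div_rpow h7.le hx.le]
  have h8 : (x - X) ^ (1 / 4 : ℝ) ≠ 0 := (Real.rpow_pos_of_pos h7 _).ne'
  field_simp

theorem asy2 {k : ℕ → ℝ} (hk : ∀ d, 0 ≤ k d) {c : ℝ}
    (hT : Tendsto (fun x : ℝ => PS k x / x ^ (1 / 4 : ℝ)) atTop (𝓝 c)) {η : ℝ} (hη : 0 < η) :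
    ∀ᶠ l : ℝ in atTop, ∑ d ∈ Icc 1 ⌊Real.exp l⌋₊,
      k d * Real.exp (-((l - Real.log d) / 4)) ≤ η * l ^ (1 / 4 : ℝ) := by
  have hc0 : 0 ≤ c := by
    refine ge_of_tendsto hT ?_
    filter_upwards [eventually_gt_atTop 0] with x hx
    exact div_nonneg (PS_nonneg hk x) (Real.rpow_nonneg hx.le _)
  -- the choice of `X`
  obtain ⟨X, hX0, hX⟩ : ∃ X : ℝ, 0 ≤ X ∧ Real.exp (-(X / 4)) * (c + 1) ≤ η / 2 := by
    have h1 : Tendsto (fun X : ℝ => Real.exp (-(X / 4)) * (c + 1)) atTop (𝓝 (0 * (c + 1))) := by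
      refine Tendsto.mul_const _ (Real.tendsto_exp_neg_atTop_nhds_zero.comp ?_)
      exact tendsto_id.atTop_div_const (by norm_num)
    rw [zero_mul] at h1
    obtain ⟨X, h2, h3⟩ := ((h1.eventually_le_const (half_pos hη)).and (eventually_ge_atTop 0)).exists
    exact ⟨X, h3, h2⟩
  have h1 := hT.eventually_le_const (show c < c + 1 by linarith)
  have h2 : Tendsto (fun x : ℝ => PS k x / x ^ (1 / 4 : ℝ) - PS k (x - X) / x ^ (1 / 4 : ℝ)) atTop
      (𝓝 (c - c)) := hT.sub (tendsto_shift hT X)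
  rw [sub_self] at h2
  filter_upwards [h1, h2.eventually_le_const (half_pos hη), eventually_gt_atTop 0] with l h3 h4 hl
  have hl4 : 0 < l ^ (1 / 4 : ℝ) := Real.rpow_pos_of_pos hl _
  rw [div_le_iff₀ hl4] at h3
  rw [← sub_div, div_le_iff₀ hl4] at h4
  -- the pointwise bound
  have h5 : ∑ d ∈ Icc 1 ⌊Real.exp l⌋₊, k d * Real.exp (-((l - Real.log d) / 4)) ≤
      Real.exp (-(X / 4)) * PS k l + (PS k l - PS k (l - X)) := by
    have hsub : Icc 1 ⌊Real.exp (l - X)⌋₊ ⊆ Icc 1 ⌊Real.exp l⌋₊ :=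
      Icc_subset_Icc_right (Nat.floor_mono (Real.exp_le_exp.2 (by linarith)))
    have h6 : PS k l - PS k (l - X) = ∑ d ∈ Icc 1 ⌊Real.exp l⌋₊ \ Icc 1 ⌊Real.exp (l - X)⌋₊, k d := by
      unfold PS
      rw [← sum_sdiff hsub]
      ring
    rw [h6, ← sum_sdiff hsub, add_comm]
    refine add_le_add ?_ ?_
    · calc ∑ d ∈ Icc 1 ⌊Real.exp (l - X)⌋₊, k d * Real.exp (-((l - Real.log d) / 4))
          ≤ ∑ d ∈ Icc 1 ⌊Real.exp (l - X)⌋₊, k d * Real.exp (-(X / 4)) := by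
            refine sum_le_sum fun d hd => mul_le_mul_of_nonneg_left ?_ (hk d)
            have h7 : 1 ≤ d := (mem_Icc.1 hd).1
            have h8 : Real.log d ≤ l - X := (le_exp_iff h7 _).1 (mem_Icc.1 hd).2
            exact Real.exp_le_exp.2 (by linarith)
        _ = Real.exp (-(X / 4)) * PS k (l - X) := by
            rw [← sum_mul, mul_comm]
            rfl
        _ ≤ Real.exp (-(X / 4)) * PS k l :=
            mul_le_mul_of_nonneg_left (PS_mono hk (by linarith)) (Real.exp_pos _).le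
    · refine sum_le_sum fun d hd => ?_
      have h7 : 1 ≤ d := (mem_Icc.1 (mem_sdiff.1 hd).1).1
      have h8 : Real.log d ≤ l := (le_exp_iff h7 _).1 (mem_Icc.1 (mem_sdiff.1 hd).1).2
      calc k d * Real.exp (-((l - Real.log d) / 4)) ≤ k d * 1 :=
            mul_le_mul_of_nonneg_left (Real.exp_le_one_iff.2 (by linarith)) (hk d)
        _ = k d := mul_one _
  have h9 : Real.exp (-(X / 4)) * PS k l ≤ η / 2 * l ^ (1 / 4 : ℝ) :=
    calc Real.exp (-(X / 4)) * PS k l ≤ Real.exp (-(X / 4)) * ((c + 1) * l ^ (1 / 4 : ℝ)) :=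
          mul_le_mul_of_nonneg_left h3 (Real.exp_pos _).le
      _ = (Real.exp (-(X / 4)) * (c + 1)) * l ^ (1 / 4 : ℝ) := by ring
      _ ≤ _ := mul_le_mul_of_nonneg_right hX hl4.le
  linarith

end

end Pool.Agent.L7h47.DP
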