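import Pool.Agent.L7h47.DP.Qu2
import Pool.Agent.L7h47.DP.Qu3
import Pool.Agent.H306R2.EPLim

set_option autoImplicit false

/-!
# The mean value of the quadratic form
-/

namespace Pool.Agent.L7h47.DP

open Finset Filter Topology MeasureTheory
open Pool.Agent.L7h11.DP

noncomputable section

/-- **S_QU** -/
theorem s_qu (hDG : S_DG) (hBD : S_BD) (hSL : S_SL) (hSK : S_SK) : S_QU := by
  intro ε hε
  have hA0 : 0 < A0 :=
    div_pos (Pool.Agent.H306R2.aF_pos (by norm_num)) (Real.Gamma_pos_of_pos (by norm_num))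
  obtain ⟨C1, hC1, hb⟩ := bounds hBD
  obtain ⟨c, hc⟩ := hSK
  obtain ⟨C2, hC2, hL⟩ := lphi_bound
  set kf : ℕ → ℝ := fun d => (Nat.totient d : ℝ) / (d : ℝ) ^ 2 * KK d ^ 2 with hkf
  set lf : ℕ → ℝ := fun d => (Nat.totient d : ℝ) / (d : ℝ) ^ 2 * lam d ^ 2 with hlf
  have hk0 : ∀ d, 0 ≤ kf d := fun d => by positivity
  have hl0 : ∀ d, 0 ≤ lf d := fun d => by positivity
  have hK : Tendsto (fun x : ℝ => PS kf x / x ^ (1 / 4 : ℝ)) atTop (𝓝 c) := hc
  have hLt : Tendsto (fun x : ℝ => PS lf x / x ^ (1 / 4 : ℝ)) atTop (𝓝 A0) := hSL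
  have hc0 : 0 ≤ c := by
    refine ge_of_tendsto hK ?_
    filter_upwards [eventually_gt_atTop 0] with x hx
    exact div_nonneg (PS_nonneg hk0 x) (Real.rpow_nonneg hx.le _)
  have hπ := Real.pi_pos
  set η : ℝ := ε * (Real.pi / 4 * A0) / 6 with hη
  have hη0 : 0 < η := by positivity
  set ε' : ℝ := η / (8 * C1 * (c + 1)) with hε'
  have hε'0 : 0 < ε' := by positivity
  obtain ⟨C, hC, hB⟩ := hBD ε' hε'0
  set η' : ℝ := η / (2 * C1 * C) with hη'
  have hη'0 : 0 < η' := by positivity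
  have E1 : ∀ᶠ l : ℝ in atTop, PS lf l ≤ (A0 + η) * l ^ (1 / 4 : ℝ) := by
    filter_upwards [hLt.eventually_le_const (show A0 < A0 + η by linarith),
      eventually_gt_atTop 0] with l h1 h2
    rwa [div_le_iff₀ (Real.rpow_pos_of_pos h2 _)] at h1
  have E3 : ∀ᶠ l : ℝ in atTop, PS kf l ≤ (c + 1) * l ^ (1 / 4 : ℝ) := by
    filter_upwards [hK.eventually_le_const (show c < c + 1 by linarith),
      eventually_gt_atTop 0] with l h1 h2
    rwa [div_le_iff₀ (Real.rpow_pos_of_pos h2 _)] at h1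
  have E4 := asy2 hk0 hK hη'0
  obtain ⟨x0, hx0⟩ := eventually_atTop.1 E1
  set x1 : ℝ := max x0 0 with hx1d
  have hx10 : 0 ≤ x1 := le_max_right _ _
  have E2 : ∀ᶠ l : ℝ in atTop, x1 * PS lf x1 ≤ η * l ^ (5 / 4 : ℝ) :=
    ((tendsto_rpow_atTop (show (0 : ℝ) < 5 / 4 by norm_num)).const_mul_atTop
      hη0).eventually_ge_atTop _
  have E5 : ∀ᶠ l : ℝ in atTop, (24 * C1 * C + 2 * C1 ^ 2 * C2) * (c + 1) ≤ η * l :=
    (tendsto_id.const_mul_atTop hη0).eventually_ge_atTop _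
  obtain ⟨l0, h0⟩ := eventually_atTop.1 (((E1.and E3).and (E4.and E2)).and
    (E5.and (eventually_ge_atTop x1)))
  refine ⟨max l0 1, by positivity, fun l hl Z hZ => ?_⟩
  obtain ⟨⟨⟨e1, e3⟩, e4, e2⟩, e5, e6⟩ := h0 l ((le_max_left _ _).trans hl)
  have hl1 : 1 ≤ l := (le_max_right _ _).trans hl
  have hlp : 0 < l := by linarith
  have hZp : 0 < Z := hlp.trans_le hZ
  have e7 := asy1 hl0 (A := A0 + η) hx10 (fun x hx => hx0 x ((le_max_left _ _).trans hx)) e6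
    (by positivity)
  -- the first sum
  have s1 : (∑ d ∈ Icc 1 ⌊Real.exp l⌋₊, (Nat.totient d : ℝ) / (d : ℝ) ^ 2 *
      ((Z - 2 * (l - Real.log d)) * BB d (l - Real.log d) ^ 2 +
        3 * BB d (l - Real.log d) * ∫ v in (0 : ℝ)..(l - Real.log d), BB d v)) ≤
      Real.pi / 4 * (Z * PS lf l + ∑ d ∈ Icc 1 ⌊Real.exp l⌋₊, lf d * (l - Real.log d)) +
        C1 * (8 * Z * ε' + 24 * C) * PS kf l +
        2 * C1 * Z * C * ∑ d ∈ Icc 1 ⌊Real.exp l⌋₊, kf d * Real.exp (-((l - Real.log d) / 4)) := by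
    have : Real.pi / 4 * (Z * PS lf l + ∑ d ∈ Icc 1 ⌊Real.exp l⌋₊, lf d * (l - Real.log d)) +
        C1 * (8 * Z * ε' + 24 * C) * PS kf l +
        2 * C1 * Z * C * ∑ d ∈ Icc 1 ⌊Real.exp l⌋₊, kf d * Real.exp (-((l - Real.log d) / 4)) =
        ∑ d ∈ Icc 1 ⌊Real.exp l⌋₊, (Real.pi / 4 * (Z * lf d + lf d * (l - Real.log d)) +
          C1 * (8 * Z * ε' + 24 * C) * kf d +
          2 * C1 * Z * C * (kf d * Real.exp (-((l - Real.log d) / 4)))) := by
      rw [sum_add_distrib, sum_add_distrib, ← mul_sum, ← mul_sum, ← mul_sum, sum_add_distrib,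
        ← mul_sum]
      rfl
    rw [this]
    refine sum_le_sum fun d hd => ?_
    have hd1 : 1 ≤ d := (mem_Icc.1 hd).1
    have hd2 : Real.log d ≤ l := (le_exp_iff hd1 _).1 (mem_Icc.1 hd).2
    have hd3 : 0 ≤ Real.log d := Real.log_natCast_nonneg d
    set u := l - Real.log d with hu
    have hu0 : 0 ≤ u := by linarith
    have huZ : u ≤ Z := by linarith
    have hp := point (KK_pos d).le hC.le hε'0.le hC1.le hu0 huZ (hb d hd1).1 ((hb d hd1).2 u hu0)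
      (hB d hd1 u hu0) (int_bound (KK_pos d).le hC.le (fun v hv => hB d hd1 v hv) hu0)
    have hw : (0 : ℝ) ≤ (Nat.totient d : ℝ) / (d : ℝ) ^ 2 := by positivity
    have ha : (√Real.pi / 2 * lam d) ^ 2 = Real.pi / 4 * lam d ^ 2 := by
      rw [mul_pow, div_pow, Real.sq_sqrt hπ.le]
      norm_num
    rw [ha] at hp
    refine (mul_le_mul_of_nonneg_left hp hw).trans (le_of_eq ?_)
    simp only [hkf, hlf]
    ring
  -- the second sum
  have s2 : 2 * ∑ d ∈ Icc 1 ⌊Real.exp l⌋₊, Lphi d / (d : ℝ) ^ 2 * BB d (l - Real.log d) ^ 2 ≤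
      2 * C1 ^ 2 * C2 * PS kf l := by
    have h1 : ∑ d ∈ Icc 1 ⌊Real.exp l⌋₊, Lphi d / (d : ℝ) ^ 2 * BB d (l - Real.log d) ^ 2 ≤
        C1 ^ 2 * ∑ d ∈ Icc 1 ⌊Real.exp l⌋₊, Lphi d / (d : ℝ) ^ 2 * KK d ^ 2 := by
      rw [mul_sum]
      refine sum_le_sum fun d hd => ?_
      have hd1 : 1 ≤ d := (mem_Icc.1 hd).1
      have hd2 : Real.log d ≤ l := (le_exp_iff hd1 _).1 (mem_Icc.1 hd).2
      have h2 : BB d (l - Real.log d) ^ 2 ≤ (C1 * KK d) ^ 2 :=
        sq_le_sq' (abs_le.1 ((hb d hd1).2 _ (by linarith))).1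
          (abs_le.1 ((hb d hd1).2 _ (by linarith))).2
      calc _ ≤ Lphi d / (d : ℝ) ^ 2 * (C1 * KK d) ^ 2 :=
            mul_le_mul_of_nonneg_left h2 (div_nonneg (Lphi_nonneg d) (by positivity))
        _ = _ := by ring
    have h3 : ∑ d ∈ Icc 1 ⌊Real.exp l⌋₊, Lphi d / (d : ℝ) ^ 2 * KK d ^ 2 ≤ C2 * PS kf l :=
      hL ⌊Real.exp l⌋₊
    have h4 : C1 ^ 2 * ∑ d ∈ Icc 1 ⌊Real.exp l⌋₊, Lphi d / (d : ℝ) ^ 2 * KK d ^ 2 ≤
        C1 ^ 2 * (C2 * PS kf l) := mul_le_mul_of_nonneg_left h3 (by positivity)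
    linarith
  rw [hDG Z l hlp.le]
  refine (add_le_add s1 s2).trans ?_
  -- arithmetic
  set q := l ^ (1 / 4 : ℝ) with hq
  have hq0 : 0 < q := Real.rpow_pos_of_pos hlp _
  have h54 : l ^ (5 / 4 : ℝ) = l * q := by
    rw [hq, show (5 / 4 : ℝ) = 1 + 1 / 4 by norm_num, Real.rpow_add hlp, Real.rpow_one]
  rw [h54] at e2 e7 ⊢
  have hlq : l * q ≤ Z * q := mul_le_mul_of_nonneg_right hZ hq0.le
  have hlq0 : 0 ≤ l * q := by positivity
  have t1 : Real.pi / 4 * (Z * PS lf l + ∑ d ∈ Icc 1 ⌊Real.exp l⌋₊, lf d * (l - Real.log d)) ≤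
      Real.pi / 4 * A0 * (Z * q + 4 / 5 * (l * q)) + 3 * (η * (Z * q)) := by
    have h1 : Z * PS lf l ≤ Z * ((A0 + η) * q) := mul_le_mul_of_nonneg_left e1 hZp.le
    have h2 : Z * PS lf l + ∑ d ∈ Icc 1 ⌊Real.exp l⌋₊, lf d * (l - Real.log d) ≤
        A0 * (Z * q + 4 / 5 * (l * q)) + 3 * (η * (Z * q)) := by
      have h3 : η * (l * q) ≤ η * (Z * q) := mul_le_mul_of_nonneg_left hlq hη0.le
      have h5 : 0 ≤ η * (Z * q) := by positivity
      nlinarith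
    have h4 : Real.pi / 4 ≤ 1 := by linarith [Real.pi_le_four]
    calc _ ≤ Real.pi / 4 * (A0 * (Z * q + 4 / 5 * (l * q)) + 3 * (η * (Z * q))) :=
          mul_le_mul_of_nonneg_left h2 (by positivity)
      _ = Real.pi / 4 * A0 * (Z * q + 4 / 5 * (l * q)) + Real.pi / 4 * (3 * (η * (Z * q))) := by
          ring
      _ ≤ _ := by
          have h5 : 0 ≤ 3 * (η * (Z * q)) := by positivity
          have := mul_le_mul_of_nonneg_right h4 h5
          linarith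
  have t2 : C1 * (8 * Z * ε') * PS kf l ≤ η * (Z * q) := by
    calc C1 * (8 * Z * ε') * PS kf l ≤ C1 * (8 * Z * ε') * ((c + 1) * q) :=
          mul_le_mul_of_nonneg_left e3 (by positivity)
      _ = (8 * C1 * (c + 1) * ε') * (Z * q) := by ring
      _ = η * (Z * q) := by
          rw [hε', mul_div_cancel₀]
          positivity
  have t3 : (24 * C1 * C + 2 * C1 ^ 2 * C2) * PS kf l ≤ η * (Z * q) := by
    calc (24 * C1 * C + 2 * C1 ^ 2 * C2) * PS kf l ≤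
          (24 * C1 * C + 2 * C1 ^ 2 * C2) * ((c + 1) * q) :=
          mul_le_mul_of_nonneg_left e3 (by positivity)
      _ = (24 * C1 * C + 2 * C1 ^ 2 * C2) * (c + 1) * q := by ring
      _ ≤ (η * l) * q := mul_le_mul_of_nonneg_right e5 hq0.le
      _ = η * (l * q) := by ring
      _ ≤ η * (Z * q) := mul_le_mul_of_nonneg_left hlq hη0.le
  have t4 : 2 * C1 * Z * C * ∑ d ∈ Icc 1 ⌊Real.exp l⌋₊,
      kf d * Real.exp (-((l - Real.log d) / 4)) ≤ η * (Z * q) := by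
    calc _ ≤ 2 * C1 * Z * C * (η' * q) := mul_le_mul_of_nonneg_left e4 (by positivity)
      _ = (2 * C1 * C * η') * (Z * q) := by ring
      _ = η * (Z * q) := by
          rw [hη', mul_div_cancel₀]
          positivity
  have t5 : 6 * (η * (Z * q)) ≤ ε * (Real.pi / 4 * A0) * (Z * q + 4 / 5 * (l * q)) := by
    have h1 : 6 * (η * (Z * q)) = ε * (Real.pi / 4 * A0) * (Z * q) := by
      rw [hη]
      ring
    rw [h1]
    exact mul_le_mul_of_nonneg_left (by linarith) (by positivity)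
  calc _ = Real.pi / 4 * (Z * PS lf l + ∑ d ∈ Icc 1 ⌊Real.exp l⌋₊, lf d * (l - Real.log d)) +
        C1 * (8 * Z * ε') * PS kf l + (24 * C1 * C + 2 * C1 ^ 2 * C2) * PS kf l +
        2 * C1 * Z * C * ∑ d ∈ Icc 1 ⌊Real.exp l⌋₊, kf d * Real.exp (-((l - Real.log d) / 4)) := by
        ring
    _ ≤ (Real.pi / 4 * A0 * (Z * q + 4 / 5 * (l * q)) + 3 * (η * (Z * q))) + η * (Z * q) +
        η * (Z * q) + η * (Z * q) := by linarith
    _ = Real.pi / 4 * A0 * (Z * q + 4 / 5 * (l * q)) + 6 * (η * (Z * q)) := by ring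
    _ ≤ Real.pi / 4 * A0 * (Z * q + 4 / 5 * (l * q)) +
        ε * (Real.pi / 4 * A0) * (Z * q + 4 / 5 * (l * q)) := by linarith
    _ = _ := by ring

end

end Pool.Agent.L7h47.DP
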