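import Mathlib

set_option autoImplicit false

/-!
# The coefficients of `ζ^(-1/2)`: the asymptotics of the solutions of the equation
-/

namespace Pool.Agent.L7h47.DP

open Filter Topology MeasureTheory

noncomputable section

theorem rp_mul {u : ℝ} (hu : 0 < u) (a b : ℝ) : u ^ a * u ^ b = u ^ (a + b) :=
  (Real.rpow_add hu a b).symm

/-- the asymptotics -/
theorem calc_core {F : ℝ → ℝ} {C5 K : ℝ} (hK : 0 ≤ K) (hC5 : 0 ≤ C5) (hm : Measurable F)
    (hint : ∀ a b, IntervalIntegrable F volume a b)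
    (hrc : ∀ u, 0 < u → ContinuousWithinAt F (Set.Ioi u) u)
    (hB : ∀ u, 0 ≤ u → |F u| ≤ C5 * √(1 + u))
    (hD : ∀ u, 1 ≤ u → |u * F u - (∫ v in (0 : ℝ)..u, F v) / 2| ≤
      K * (|F u| + u ^ (-(1 / 2) : ℝ))) :
    ∃ κ C : ℝ, 0 ≤ C ∧ ∀ u, 1 ≤ u → |F u - κ * u ^ (-(1 / 2) : ℝ)| ≤ C * u ^ (-(3 / 2) : ℝ) := by
  set G : ℝ → ℝ := fun u => ∫ v in (0 : ℝ)..u, F v with hG
  set H : ℝ → ℝ := fun u => G u * u ^ (-(1 / 2) : ℝ) with hH
  set D : ℝ → ℝ := fun u => u * F u - G u / 2 with hDd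
  have hGc : Continuous G := intervalIntegral.continuous_primitive hint 0
  have hDm : Measurable D := by
    have := hGc.measurable
    fun_prop
  -- the derivative of `H`
  have hder : ∀ x, 0 < x → HasDerivWithinAt H (D x * x ^ (-(3 / 2) : ℝ)) (Set.Ioi x) x := by
    intro x hx
    have h1 : HasDerivWithinAt G (F x) (Set.Ioi x) x :=
      (intervalIntegral.integral_hasDerivWithinAt_right (hint 0 x) (s := Set.Ici x)
        (t := Set.Ioi x) hm.stronglyMeasurable.stronglyMeasurableAtFilter (hrc x hx)).mono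
        Set.Ioi_subset_Ici_self
    have h2 : HasDerivWithinAt (fun u : ℝ => u ^ (-(1 / 2) : ℝ))
        (-(1 / 2) * x ^ (-(1 / 2) - 1 : ℝ)) (Set.Ioi x) x :=
      (Real.hasDerivAt_rpow_const (Or.inl hx.ne')).hasDerivWithinAt
    refine (h1.mul h2).congr_deriv ?_
    have e1 : x ^ (-(1 / 2) - 1 : ℝ) = x ^ (-(3 / 2) : ℝ) := by norm_num
    have e2 : x ^ (-(1 / 2) : ℝ) = x * x ^ (-(3 / 2) : ℝ) := by
      nth_rewrite 2 [← Real.rpow_one x]
      rw [rp_mul hx]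
      norm_num
    rw [e1, e2]
    simp only [hDd]
    ring
  -- the increments of `H`
  have hinc : ∀ (A q : ℝ), 0 ≤ A → (∀ u, 1 ≤ u → |D u| ≤ A * u ^ q) → ∀ a b, 1 ≤ a → a ≤ b →
      |H b - H a| ≤ ∫ x in a..b, A * x ^ (q - 3 / 2) := by
    intro A q hA hDA a b ha hab
    have hpos : ∀ x ∈ Set.uIcc a b, 0 < x := by
      intro x hx
      rw [Set.uIcc_of_le hab] at hx
      linarith [hx.1]
    have hcr : ∀ r : ℝ, ContinuousOn (fun x : ℝ => x ^ r) (Set.uIcc a b) := fun r =>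
      continuousOn_id.rpow_const fun x hx => Or.inl (hpos x hx).ne'
    have hI1 : IntervalIntegrable (fun x => A * x ^ (q - 3 / 2)) volume a b :=
      ((hcr _).intervalIntegrable).const_mul A
    have hle : ∀ x ∈ Set.Icc a b, |D x * x ^ (-(3 / 2) : ℝ)| ≤ A * x ^ (q - 3 / 2) := by
      intro x hx
      have hx1 : 1 ≤ x := ha.trans hx.1
      have hx0 : 0 < x := by linarith
      rw [abs_mul, abs_of_nonneg (Real.rpow_nonneg hx0.le _)]
      calc |D x| * x ^ (-(3 / 2) : ℝ) ≤ (A * x ^ q) * x ^ (-(3 / 2) : ℝ) :=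
            mul_le_mul_of_nonneg_right (hDA x hx1) (Real.rpow_nonneg hx0.le _)
        _ = A * x ^ (q - 3 / 2) := by
            rw [mul_assoc, rp_mul hx0]
            congr 2
    have hI2 : IntervalIntegrable (fun x => D x * x ^ (-(3 / 2) : ℝ)) volume a b := by
      refine hI1.mono_fun' ?_ ?_
      · have : Measurable fun x : ℝ => D x * x ^ (-(3 / 2) : ℝ) := by fun_prop
        exact this.aestronglyMeasurable
      · rw [Set.uIoc_of_le hab, EventuallyLE, ae_restrict_iff' measurableSet_Ioc]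
        exact Eventually.of_forall fun x hx => by
          rw [Real.norm_eq_abs]
          exact hle x ⟨hx.1.le, hx.2⟩
    have hfun : ∫ x in a..b, D x * x ^ (-(3 / 2) : ℝ) = H b - H a := by
      refine intervalIntegral.integral_eq_sub_of_hasDeriv_right ?_ ?_ hI2
      · exact hGc.continuousOn.mul (hcr _)
      · intro x hx
        rw [min_eq_left hab] at hx
        exact hder x (by linarith [hx.1])
    rw [← hfun]
    refine (intervalIntegral.abs_integral_le_integral_abs hab).trans ?_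
    exact intervalIntegral.integral_mono_on hab hI2.abs hI1 hle
  -- `F` in terms of `H`
  obtain ⟨K', hK', hFH⟩ : ∃ K' : ℝ, 0 ≤ K' ∧ ∀ u, 1 ≤ u →
      |F u| ≤ |H u| * u ^ (-(1 / 2) : ℝ) + K' * u ^ (-(3 / 2) : ℝ) := by
    refine ⟨2 * K + C5 * √(1 + 2 * K) * (2 * K) ^ (3 / 2 : ℝ), by positivity, fun u hu => ?_⟩
    have hu0 : 0 < u := by linarith
    have hp1 : 0 < u ^ (-(1 / 2) : ℝ) := Real.rpow_pos_of_pos hu0 _
    have hp3 : 0 < u ^ (-(3 / 2) : ℝ) := Real.rpow_pos_of_pos hu0 _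
    rcases le_total (2 * K) u with h | h
    · have h1 := hD u hu
      have h2 : |u * F u| ≤ |G u| / 2 + K * (|F u| + u ^ (-(1 / 2) : ℝ)) := by
        calc |u * F u| = |(u * F u - G u / 2) + G u / 2| := by ring_nf
          _ ≤ |u * F u - G u / 2| + |G u / 2| := abs_add_le _ _
          _ ≤ K * (|F u| + u ^ (-(1 / 2) : ℝ)) + |G u| / 2 := by
              refine add_le_add h1 (le_of_eq ?_)
              rw [abs_div, abs_of_pos (show (0 : ℝ) < 2 by norm_num)]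
          _ = _ := by ring
      rw [abs_mul, abs_of_pos hu0] at h2
      have h3 : |G u| = |H u| * u ^ (1 / 2 : ℝ) := by
        simp only [hH]
        rw [abs_mul, abs_of_pos hp1, mul_assoc, rp_mul hu0]
        norm_num
      have h4 : u / 2 * |F u| ≤ |H u| * u ^ (1 / 2 : ℝ) / 2 + K * u ^ (-(1 / 2) : ℝ) := by
        have h5 : K * |F u| ≤ u / 2 * |F u| :=
          mul_le_mul_of_nonneg_right (by linarith) (abs_nonneg _)
        rw [h3] at h2
        linarith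
      have h6 : |F u| ≤ |H u| * u ^ (-(1 / 2) : ℝ) + 2 * K * u ^ (-(3 / 2) : ℝ) := by
        have e1 : u * u ^ (-(1 / 2) : ℝ) = u ^ (1 / 2 : ℝ) := by
          nth_rewrite 1 [← Real.rpow_one u]
          rw [rp_mul hu0]
          norm_num
        have e2 : u * u ^ (-(3 / 2) : ℝ) = u ^ (-(1 / 2) : ℝ) := by
          nth_rewrite 1 [← Real.rpow_one u]
          rw [rp_mul hu0]
          norm_num
        have h7 : u / 2 * |F u| ≤
            u / 2 * (|H u| * u ^ (-(1 / 2) : ℝ) + 2 * K * u ^ (-(3 / 2) : ℝ)) := by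
          refine h4.trans (le_of_eq ?_)
          rw [← e1, ← e2]
          ring
        exact le_of_mul_le_mul_left h7 (by linarith)
      refine h6.trans ?_
      have : 0 ≤ C5 * √(1 + 2 * K) * (2 * K) ^ (3 / 2 : ℝ) * u ^ (-(3 / 2) : ℝ) := by positivity
      linarith
    · have h1 : |F u| ≤ C5 * √(1 + 2 * K) := (hB u hu0.le).trans
        (mul_le_mul_of_nonneg_left (Real.sqrt_le_sqrt (by linarith)) hC5)
      have h2 : 1 ≤ (2 * K) ^ (3 / 2 : ℝ) * u ^ (-(3 / 2) : ℝ) := by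
        have h3 : u ^ (3 / 2 : ℝ) ≤ (2 * K) ^ (3 / 2 : ℝ) :=
          Real.rpow_le_rpow hu0.le h (by norm_num)
        calc (1 : ℝ) = u ^ (3 / 2 : ℝ) * u ^ (-(3 / 2) : ℝ) := by
              rw [rp_mul hu0]
              norm_num
          _ ≤ _ := mul_le_mul_of_nonneg_right h3 hp3.le
      have h4 : 0 ≤ |H u| * u ^ (-(1 / 2) : ℝ) := by positivity
      have h5 : 0 ≤ 2 * K * u ^ (-(3 / 2) : ℝ) := by positivity
      have h6 : C5 * √(1 + 2 * K) * 1 ≤
          C5 * √(1 + 2 * K) * ((2 * K) ^ (3 / 2 : ℝ) * u ^ (-(3 / 2) : ℝ)) :=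
        mul_le_mul_of_nonneg_left h2 (by positivity)
      linarith
  -- `D` in terms of `F`
  have hDF : ∀ (A q : ℝ), 0 ≤ A → -(1 / 2) ≤ q → (∀ u, 1 ≤ u → |F u| ≤ A * u ^ q) →
      ∀ u, 1 ≤ u → |D u| ≤ K * (A + 1) * u ^ q := by
    intro A q hA hq hFA u hu
    have h1 : u ^ (-(1 / 2) : ℝ) ≤ u ^ q := Real.rpow_le_rpow_of_exponent_le hu hq
    calc |D u| ≤ K * (|F u| + u ^ (-(1 / 2) : ℝ)) := hD u hu
      _ ≤ K * (A * u ^ q + u ^ q) := mul_le_mul_of_nonneg_left (add_le_add (hFA u hu) h1) hK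
      _ = _ := by ring
  -- `F` from a bound for `H`
  have hFq : ∀ (A q : ℝ), 0 ≤ A → 0 ≤ q → (∀ u, 1 ≤ u → |H u| ≤ A * u ^ q) →
      ∀ u, 1 ≤ u → |F u| ≤ (A + K') * u ^ (q - 1 / 2) := by
    intro A q hA hq hHA u hu
    have hu0 : 0 < u := by linarith
    have h1 : u ^ (-(3 / 2) : ℝ) ≤ u ^ (q - 1 / 2) :=
      Real.rpow_le_rpow_of_exponent_le hu (by linarith)
    calc |F u| ≤ |H u| * u ^ (-(1 / 2) : ℝ) + K' * u ^ (-(3 / 2) : ℝ) := hFH u hu
      _ ≤ (A * u ^ q) * u ^ (-(1 / 2) : ℝ) + K' * u ^ (q - 1 / 2) :=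
          add_le_add (mul_le_mul_of_nonneg_right (hHA u hu) (Real.rpow_nonneg hu0.le _))
            (mul_le_mul_of_nonneg_left h1 hK')
      _ = (A + K') * u ^ (q - 1 / 2) := by
          rw [mul_assoc, rp_mul hu0, ← sub_eq_add_neg]
          ring
  -- the integral of a power
  have hpw : ∀ (r : ℝ), r ≠ -1 → ∀ a b : ℝ, 1 ≤ a → a ≤ b →
      ∫ x in a..b, x ^ r = (b ^ (r + 1) - a ^ (r + 1)) / (r + 1) := by
    intro r hr a b ha hab
    refine integral_rpow (Or.inr ⟨hr, fun h => ?_⟩)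
    rw [Set.uIcc_of_le hab] at h
    linarith [h.1]
  -- step 1
  have hF1 : ∀ u, 1 ≤ u → |F u| ≤ (2 * C5) * u ^ (1 / 2 : ℝ) := by
    intro u hu
    refine (hB u (by linarith)).trans ?_
    have h1 : √(1 + u) ≤ 2 * √u := by
      rw [show (2 : ℝ) * √u = √(2 ^ 2 * u) by
        rw [Real.sqrt_mul (by norm_num), Real.sqrt_sq (by norm_num)]]
      exact Real.sqrt_le_sqrt (by linarith)
    rw [← Real.sqrt_eq_rpow]
    calc C5 * √(1 + u) ≤ C5 * (2 * √u) := mul_le_mul_of_nonneg_left h1 hC5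
      _ = _ := by ring
  have hD1 := hDF _ _ (by positivity) (by norm_num) hF1
  have hD1' : ∀ u, 1 ≤ u → |D u| ≤ K * (2 * C5 + 1) * u ^ (3 / 4 : ℝ) := fun u hu =>
    (hD1 u hu).trans (mul_le_mul_of_nonneg_left
      (Real.rpow_le_rpow_of_exponent_le hu (by norm_num)) (by positivity))
  obtain ⟨A1, hA1, hH1⟩ : ∃ A1 : ℝ, 0 ≤ A1 ∧ ∀ u, 1 ≤ u → |H u| ≤ A1 * u ^ (1 / 4 : ℝ) := by
    refine ⟨|H 1| + 4 * (K * (2 * C5 + 1)), by positivity, fun u hu => ?_⟩
    have h1 := hinc _ _ (by positivity) hD1' 1 u le_rfl hu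
    rw [intervalIntegral.integral_const_mul, hpw _ (by norm_num) 1 u le_rfl hu] at h1
    norm_num at h1
    have h2 : 1 ≤ u ^ (1 / 4 : ℝ) := Real.one_le_rpow hu (by norm_num)
    have h3 : |H u| ≤ |H u - H 1| + |H 1| := by
      calc |H u| = |(H u - H 1) + H 1| := by ring_nf
        _ ≤ _ := abs_add_le _ _
    have h4 : |H 1| * 1 ≤ |H 1| * u ^ (1 / 4 : ℝ) :=
      mul_le_mul_of_nonneg_left h2 (abs_nonneg _)
    have h5 : 0 ≤ K * (2 * C5 + 1) := by positivity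
    nlinarith
  -- step 2
  have hF2 := hFq _ _ hA1 (by norm_num) hH1
  have hD2 := hDF _ _ (by positivity) (by norm_num) hF2
  obtain ⟨A2, hA2, hH2⟩ : ∃ A2 : ℝ, 0 ≤ A2 ∧ ∀ u, 1 ≤ u → |H u| ≤ A2 * u ^ (0 : ℝ) := by
    refine ⟨|H 1| + 2 * (K * (A1 + K' + 1)), by positivity, fun u hu => ?_⟩
    have hu0 : 0 < u := by linarith
    have h1 := hinc _ _ (by positivity) hD2 1 u le_rfl hu
    rw [intervalIntegral.integral_const_mul, hpw _ (by norm_num) 1 u le_rfl hu] at h1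
    norm_num at h1
    have h2 : 0 ≤ u ^ (-(3 / 4) : ℝ) := Real.rpow_nonneg hu0.le _
    have h3 : |H u| ≤ |H u - H 1| + |H 1| := by
      calc |H u| = |(H u - H 1) + H 1| := by ring_nf
        _ ≤ _ := abs_add_le _ _
    rw [Real.rpow_zero, mul_one]
    have h5 : 0 ≤ K * (A1 + K' + 1) := by positivity
    nlinarith
  -- step 3
  have hF3 := hFq _ _ hA2 le_rfl hH2
  have hD3 := hDF _ _ (by positivity) (by norm_num) hF3
  set B := K * (A2 + K' + 1) with hBdef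
  have hB0 : 0 ≤ B := by positivity
  have hinc3 : ∀ a b, 1 ≤ a → a ≤ b → |H b - H a| ≤ B * a⁻¹ := by
    intro a b ha hab
    have ha0 : 0 < a := by linarith
    have h1 := hinc _ _ hB0 hD3 a b ha hab
    rw [intervalIntegral.integral_const_mul, hpw _ (by norm_num) a b ha hab] at h1
    norm_num at h1
    rw [Real.rpow_neg_one, Real.rpow_neg_one] at h1
    refine h1.trans ?_
    have : 0 ≤ b⁻¹ := inv_nonneg.2 (ha0.le.trans hab)
    nlinarith
  -- the limit of `H`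
  obtain ⟨l, hl⟩ : ∃ l : ℝ, Tendsto (fun n : ℕ => H (n + 1)) atTop (𝓝 l) := by
    refine cauchySeq_tendsto_of_complete ?_
    refine cauchySeq_of_le_tendsto_0 (fun n : ℕ => 2 * (B * ((n : ℝ) + 1)⁻¹)) ?_ ?_
    · intro n m N hn hm
      have h1 : |H (n + 1) - H (N + 1)| ≤ B * ((N : ℝ) + 1)⁻¹ := by
        have hn' : (N : ℝ) ≤ n := by exact_mod_cast hn
        have hN : (0 : ℝ) ≤ N := Nat.cast_nonneg N
        exact hinc3 _ _ (by linarith) (by linarith)
      have h2 : |H (m + 1) - H (N + 1)| ≤ B * ((N : ℝ) + 1)⁻¹ := by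
        have hn' : (N : ℝ) ≤ m := by exact_mod_cast hm
        have hN : (0 : ℝ) ≤ N := Nat.cast_nonneg N
        exact hinc3 _ _ (by linarith) (by linarith)
      rw [Real.dist_eq]
      calc |H (n + 1) - H (m + 1)| =
            |(H (n + 1) - H (N + 1)) - (H (m + 1) - H (N + 1))| := by ring_nf
        _ ≤ |H (n + 1) - H (N + 1)| + |H (m + 1) - H (N + 1)| := abs_sub _ _
        _ ≤ _ := by linarith
    · have h1 : Tendsto (fun n : ℕ => ((n : ℝ) + 1)⁻¹) atTop (𝓝 0) :=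
        tendsto_inv_atTop_zero.comp (tendsto_atTop_add_const_right _ 1 tendsto_natCast_atTop_atTop)
      have h2 := (h1.const_mul B).const_mul 2
      simpa using h2
  have hHl : ∀ u, 1 ≤ u → |H u - l| ≤ B * u⁻¹ := by
    intro u hu
    have h1 : Tendsto (fun n : ℕ => |H (n + 1) - H u|) atTop (𝓝 |l - H u|) :=
      (hl.sub_const _).abs
    rw [abs_sub_comm]
    refine le_of_tendsto h1 ?_
    filter_upwards [eventually_ge_atTop ⌈u⌉₊] with n hn
    have h2 : u ≤ n := (Nat.le_ceil u).trans (by exact_mod_cast hn)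
    exact hinc3 u _ hu (by linarith)
  -- conclusion
  refine ⟨l / 2, 2 * B, by positivity, fun u hu => ?_⟩
  have hu0 : 0 < u := by linarith
  have h1 := hHl u hu
  have h2 : |D u| ≤ B * u ^ (-(1 / 2) : ℝ) := by
    have := hD3 u hu
    rwa [show (0 : ℝ) - 1 / 2 = -(1 / 2) by norm_num] at this
  have hp3 : 0 < u ^ (-(3 / 2) : ℝ) := Real.rpow_pos_of_pos hu0 _
  have e1 : u * u ^ (-(3 / 2) : ℝ) = u ^ (-(1 / 2) : ℝ) := by
    nth_rewrite 1 [← Real.rpow_one u]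
    rw [rp_mul hu0]
    norm_num
  have e2 : F u - l / 2 * u ^ (-(1 / 2) : ℝ) =
      (H u - l) / 2 * u ^ (-(1 / 2) : ℝ) + D u * u⁻¹ := by
    have e3 : H u * u ^ (-(1 / 2) : ℝ) = G u * u⁻¹ := by
      simp only [hH]
      rw [mul_assoc, rp_mul hu0, ← Real.rpow_neg_one]
      norm_num
    have e4 : D u * u⁻¹ = F u - G u * u⁻¹ / 2 := by
      simp only [hDd]
      field_simp
    rw [e4, ← e3]
    ring
  rw [e2]
  have e5 : u⁻¹ * u ^ (-(1 / 2) : ℝ) = u ^ (-(3 / 2) : ℝ) := by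
    rw [← Real.rpow_neg_one, rp_mul hu0]
    norm_num
  have hp1 : 0 ≤ u ^ (-(1 / 2) : ℝ) := Real.rpow_nonneg hu0.le _
  have hui : 0 ≤ u⁻¹ := inv_nonneg.2 hu0.le
  calc |(H u - l) / 2 * u ^ (-(1 / 2) : ℝ) + D u * u⁻¹|
      ≤ |(H u - l) / 2 * u ^ (-(1 / 2) : ℝ)| + |D u * u⁻¹| := abs_add_le _ _
    _ = |H u - l| / 2 * u ^ (-(1 / 2) : ℝ) + |D u| * u⁻¹ := by
        rw [abs_mul, abs_mul, abs_div, abs_of_pos (show (0 : ℝ) < 2 by norm_num),
          abs_of_nonneg hp1, abs_of_nonneg hui]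
    _ ≤ (B * u⁻¹) / 2 * u ^ (-(1 / 2) : ℝ) + (B * u ^ (-(1 / 2) : ℝ)) * u⁻¹ :=
        add_le_add (mul_le_mul_of_nonneg_right (div_le_div_of_nonneg_right h1 (by norm_num)) hp1)
          (mul_le_mul_of_nonneg_right h2 hui)
    _ = (3 / 2 * B) * (u⁻¹ * u ^ (-(1 / 2) : ℝ)) := by ring
    _ ≤ 2 * B * u ^ (-(3 / 2) : ℝ) := by
        rw [e5]
        exact mul_le_mul_of_nonneg_right (by linarith) hp3.le

end

end Pool.Agent.L7h47.DP
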