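import Pool.Agent.L7h47.DP.F1
import Pool.Agent.H306R2.EPLim

set_option autoImplicit false

/-!
# The coefficients of `ζ^(-1/2)`: the Dirichlet series
-/

namespace Pool.Agent.L7h47.DP

open Finset Filter Topology MeasureTheory
open Pool.Agent.L7h11.DP
open Pool.Agent.H306R2 (dv dv_nonneg dA dA_apply dA_mul dA_zero dA_one zR toC toC_apply toC_mul
  Zr Zr_summable Zr_pos Zr_tendsto dv_one)

noncomputable section

/-- Dirichlet series -/
def DS (A : ArithmeticFunction ℝ) (s : ℝ) : ℝ := ∑' n : ℕ, A n * (n : ℝ) ^ (-1 - s)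

theorem ds_summable {A : ArithmeticFunction ℝ} (hA : ∀ n, |A n| ≤ 1) {s : ℝ} (hs : 0 < s) :
    Summable fun n : ℕ => A n * (n : ℝ) ^ (-1 - s) := by
  refine Summable.of_norm_bounded (Zr_summable hs) fun n => ?_
  rw [Real.norm_eq_abs, abs_mul, abs_of_nonneg (Real.rpow_nonneg (Nat.cast_nonneg n) _)]
  exact mul_le_of_le_one_left (Real.rpow_nonneg (Nat.cast_nonneg n) _) (hA n)

theorem ds_term (A : ArithmeticFunction ℝ) (s : ℝ) (n : ℕ) :
    LSeries.term (fun n => toC A n) ((1 + s : ℝ) : ℂ) n =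
      ((A n * (n : ℝ) ^ (-1 - s) : ℝ) : ℂ) := by
  rcases Nat.eq_zero_or_pos n with rfl | hn
  · rw [LSeries.term_zero]
    simp
  · rw [LSeries.term_of_ne_zero hn.ne', toC_apply]
    have e : (n : ℝ) ^ (-1 - s) = ((n : ℝ) ^ (1 + s))⁻¹ := by
      rw [← Real.rpow_neg (Nat.cast_nonneg n)]
      congr 1
      ring
    rw [e, Complex.ofReal_mul, Complex.ofReal_inv, Complex.ofReal_cpow (Nat.cast_nonneg n)]
    rfl

theorem ds_lsum {A : ArithmeticFunction ℝ} (hA : ∀ n, |A n| ≤ 1) {s : ℝ} (hs : 0 < s) :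
    LSeriesSummable (fun n => toC A n) ((1 + s : ℝ) : ℂ) := by
  unfold LSeriesSummable
  have h : LSeries.term (fun n => toC A n) ((1 + s : ℝ) : ℂ) =
      fun n : ℕ => ((A n * (n : ℝ) ^ (-1 - s) : ℝ) : ℂ) := funext fun n => ds_term A s n
  rw [h]
  exact Complex.ofRealCLM.summable (ds_summable hA hs)

theorem ds_eq (A : ArithmeticFunction ℝ) (s : ℝ) :
    LSeries (fun n => toC A n) ((1 + s : ℝ) : ℂ) = ((DS A s : ℝ) : ℂ) := by
  unfold LSeries DS
  rw [Complex.ofReal_tsum]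
  exact tsum_congr fun n => ds_term A s n

theorem ds_mul {A B : ArithmeticFunction ℝ} (hA : ∀ n, |A n| ≤ 1) (hB : ∀ n, |B n| ≤ 1) {s : ℝ}
    (hs : 0 < s) : DS (A * B) s = DS A s * DS B s := by
  have h := ArithmeticFunction.LSeries_mul' (ds_lsum hA hs) (ds_lsum hB hs)
  rw [← toC_mul] at h
  have h1 := ds_eq (A * B) s
  rw [h, ds_eq A s, ds_eq B s] at h1
  exact_mod_cast h1.symm

theorem ds_one {s : ℝ} : DS 1 s = 1 := by
  unfold DS
  rw [tsum_eq_single 1]
  · simp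
  · intro n hn
    rw [ArithmeticFunction.one_apply_ne hn, zero_mul]

theorem ds_zR {s : ℝ} (hs : 0 < s) : DS zR s = Zr s := by
  unfold DS Zr
  refine tsum_congr fun n => ?_
  rcases Nat.eq_zero_or_pos n with rfl | hn
  · rw [Nat.cast_zero, Real.zero_rpow (by linarith), mul_zero]
  · rw [zR, ArithmeticFunction.natCoe_apply, ArithmeticFunction.zeta_apply, if_neg hn.ne']
    simp

theorem ds_f {s : ℝ} (hs : 0 < s) : DS (dA (-(1 / 2))) s = 1 / √(Zr s) := by
  have hh : ∀ n, |dA (1 / 2) n| ≤ 1 := fun n => by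
    rw [dA_apply, abs_of_nonneg (dv_nonneg (by norm_num) n)]
    exact dv_half_le n
  have hf : ∀ n, |dA (-(1 / 2)) n| ≤ 1 := fun n => (abs_fc n).trans (dv_half_le n)
  have h1 : DS (dA (-(1 / 2))) s * DS (dA (1 / 2)) s = 1 := by
    rw [← ds_mul hf hh hs, dA_mul, show -(1 / 2 : ℝ) + 1 / 2 = 0 by norm_num, dA_zero, ds_one]
  have h2 : DS (dA (1 / 2)) s * DS (dA (1 / 2)) s = Zr s := by
    rw [← ds_mul hh hh hs, dA_mul, show (1 / 2 : ℝ) + 1 / 2 = 1 by norm_num, dA_one, ds_zR hs]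
  have h3 : 0 ≤ DS (dA (1 / 2)) s := tsum_nonneg fun n => by
    rw [dA_apply]
    exact mul_nonneg (dv_nonneg (by norm_num) n) (Real.rpow_nonneg (Nat.cast_nonneg n) _)
  have h4 : √(Zr s) = DS (dA (1 / 2)) s := by
    rw [← h2, Real.sqrt_mul_self h3]
  rw [h4, eq_div_iff, h1]
  intro h5
  rw [h5, mul_zero] at h1
  exact zero_ne_one h1

theorem ds_tendsto : Tendsto (fun x : ℝ => DS (dA (-(1 / 2))) (1 / x) * √x) atTop (𝓝 1) := by
  have h1 : Tendsto (fun x : ℝ => Zr (1 / x) / x) atTop (𝓝 1) := by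
    have := Zr_tendsto one_pos
    rwa [inv_one] at this
  have h2 : Tendsto (fun x : ℝ => 1 / √(Zr (1 / x) / x)) atTop (𝓝 (1 / √1)) :=
    tendsto_const_nhds.div h1.sqrt (by simp)
  rw [Real.sqrt_one, div_one] at h2
  refine h2.congr' ?_
  filter_upwards [eventually_gt_atTop 0] with x hx
  rw [ds_f (by positivity), Real.sqrt_div (Zr_pos (by positivity)).le]
  have h3 : √x ≠ 0 := (Real.sqrt_pos.2 hx).ne'
  have h4 : √(Zr (1 / x)) ≠ 0 := (Real.sqrt_pos.2 (Zr_pos (by positivity))).ne'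
  field_simp

/-! ## The Laplace transform -/

theorem ind_int {s : ℝ} (hs : 0 < s) {a : ℝ} (ha : 0 ≤ a) :
    ∫ u in Set.Ioi (0 : ℝ), Set.indicator (Set.Ici a) (fun u => Real.exp (-(s * u))) u =
      Real.exp (-(s * a)) / s := by
  rw [setIntegral_indicator measurableSet_Ici]
  have h1 : (Set.Ioi (0 : ℝ) ∩ Set.Ici a : Set ℝ) =ᵐ[volume] Set.Ioi a := by
    have h2 : (Set.Ioi (0 : ℝ) ∩ Set.Ici a : Set ℝ) =ᵐ[volume]
        (Set.Ioi (0 : ℝ) ∩ Set.Ioi a : Set ℝ) := (ae_eq_refl _).inter Ioi_ae_eq_Ici.symm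
    refine h2.trans (Filter.EventuallyEq.of_eq ?_)
    rw [Set.Ioi_inter_Ioi, sup_eq_right.2 ha]
  rw [setIntegral_congr_set h1]
  have h3 := integral_exp_mul_Ioi (a := -s) (by linarith) a
  simp only [neg_mul] at h3
  rw [h3]
  field_simp

theorem ind_integrable {s : ℝ} (hs : 0 < s) (a : ℝ) :
    IntegrableOn (fun u => Set.indicator (Set.Ici a) (fun u => Real.exp (-(s * u))) u)
      (Set.Ioi (0 : ℝ)) := by
  have h1 := integrableOn_exp_mul_Ioi (a := -s) (by linarith) 0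
  simp only [neg_mul] at h1
  exact h1.indicator measurableSet_Ici

theorem FF_tsum (u : ℝ) (g : ℝ) : ∑' m : ℕ, fc m / m * Set.indicator (Set.Ici (Real.log m))
    (fun _ => g) u = FF u * g := by
  rw [tsum_eq_sum (s := Icc 1 ⌊Real.exp u⌋₊)]
  · unfold FF
    rw [sum_mul]
    refine sum_congr rfl fun m hm => ?_
    have h1 : 1 ≤ m := (mem_Icc.1 hm).1
    rw [Set.indicator_of_mem (show u ∈ Set.Ici (Real.log m) from
      (le_exp_iff h1 u).1 (mem_Icc.1 hm).2)]
  · intro m hm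
    rcases Nat.eq_zero_or_pos m with rfl | h1
    · simp
    · rw [Set.indicator_of_notMem, mul_zero]
      intro h2
      exact hm (mem_Icc.2 ⟨h1, (le_exp_iff h1 u).2 h2⟩)

theorem laplace {s : ℝ} (hs : 0 < s) :
    DS (dA (-(1 / 2))) s = s * ∫ u in Set.Ioi (0 : ℝ), FF u * Real.exp (-(s * u)) := by
  have hpow : ∀ m : ℕ, 1 ≤ m → Real.exp (-(s * Real.log m)) = (m : ℝ) * (m : ℝ) ^ (-1 - s) := by
    intro m hm
    have hm0 : (0 : ℝ) < m := by exact_mod_cast hm
    nth_rewrite 2 [← Real.rpow_one (m : ℝ)]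
    rw [← Real.rpow_add hm0, Real.rpow_def_of_pos hm0]
    congr 1
    ring
  set Fm : ℕ → ℝ → ℝ := fun m u => fc m / m *
    Set.indicator (Set.Ici (Real.log m)) (fun u => Real.exp (-(s * u))) u with hFm
  have hint : ∀ m, Integrable (Fm m) (volume.restrict (Set.Ioi 0)) := fun m =>
    (ind_integrable hs _).const_mul _
  have hval : ∀ m, ∫ u in Set.Ioi (0 : ℝ), Fm m u = fc m * (m : ℝ) ^ (-1 - s) / s := by
    intro m
    simp only [hFm]
    rw [integral_const_mul, ind_int hs (Real.log_natCast_nonneg m)]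
    rcases Nat.eq_zero_or_pos m with rfl | h1
    · rw [fc_zero]
      simp
    · rw [hpow m h1]
      have hm0 : (m : ℝ) ≠ 0 := by positivity
      field_simp
  have hnorm : ∀ m, ∫ u in Set.Ioi (0 : ℝ), ‖Fm m u‖ = |fc m * (m : ℝ) ^ (-1 - s)| / s := by
    intro m
    have h1 : ∀ u, ‖Fm m u‖ = |fc m / m| *
        Set.indicator (Set.Ici (Real.log m)) (fun u => Real.exp (-(s * u))) u := by
      intro u
      simp only [hFm]
      rw [Real.norm_eq_abs, abs_mul, abs_of_nonneg (Set.indicator_nonneg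
        (fun u _ => (Real.exp_pos _).le) u)]
    simp only [h1]
    rw [integral_const_mul, ind_int hs (Real.log_natCast_nonneg m)]
    rcases Nat.eq_zero_or_pos m with rfl | h2
    · rw [fc_zero]
      simp
    · rw [hpow m h2, abs_div, abs_mul, Nat.abs_cast,
        abs_of_nonneg (Real.rpow_nonneg (Nat.cast_nonneg m) _)]
      have hm0 : (m : ℝ) ≠ 0 := by positivity
      field_simp
  have hf : ∀ n, |dA (-(1 / 2)) n| ≤ 1 := fun n => (abs_fc n).trans (dv_half_le n)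
  have hsum : Summable fun m => ∫ u in Set.Ioi (0 : ℝ), ‖Fm m u‖ := by
    simp only [hnorm]
    exact ((ds_summable hf hs).abs).div_const s
  have h := integral_tsum_of_summable_integral_norm hint hsum
  have h2 : ∀ u, ∑' m, Fm m u = FF u * Real.exp (-(s * u)) := by
    intro u
    rw [← FF_tsum]
    refine tsum_congr fun m => ?_
    simp only [hFm]
    congr 1
  simp only [h2, hval] at h
  rw [← h, tsum_div_const, mul_div_cancel₀ _ hs.ne']
  rfl

end

end Pool.Agent.L7h47.DP
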