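import Pool.Agent.L7h47.DP.F2
import Pool.Agent.L7h47.DP.F3
import Pool.Agent.L7h47.DP.F4

set_option autoImplicit false

/-!
# The coefficients of `ζ^(-1/2)`: asymptotics of the partial sums
-/

namespace Pool.Agent.L7h47.DP

open Finset Filter Topology MeasureTheory
open Pool.Agent.L7h11.DP
open Pool.Agent.H306R2 (dA)

noncomputable section

theorem FF_measurable : Measurable FF := by
  have h1 : Measurable fun n : ℕ => ∑ m ∈ Icc 1 n, fc m / m := measurable_from_nat
  exact h1.comp (Nat.measurable_floor.comp Real.measurable_exp)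

theorem FF_int (a b : ℝ) : IntervalIntegrable FF volume a b := by
  have h1 : FF = fun u => PS (fun m => max (fc m / m) 0) u - PS (fun m => max (-(fc m / m)) 0) u := by
    funext u
    unfold FF PS
    rw [← sum_sub_distrib]
    refine sum_congr rfl fun m _ => ?_
    rcases le_total 0 (fc m / m) with h | h
    · rw [max_eq_left h, max_eq_right (by linarith), sub_zero]
    · rw [max_eq_right h, max_eq_left (by linarith)]
      ring
  rw [h1]
  exact ((PS_mono fun m => le_max_right _ _).intervalIntegrable).sub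
    ((PS_mono fun m => le_max_right _ _).intervalIntegrable)

theorem FF_rc (u : ℝ) : ContinuousWithinAt FF (Set.Ioi u) u := by
  have h1 : Real.exp u < (⌊Real.exp u⌋₊ : ℝ) + 1 := Nat.lt_floor_add_one _
  have h2 : ∀ᶠ v in 𝓝[>] u, Real.exp v < (⌊Real.exp u⌋₊ : ℝ) + 1 :=
    (Real.continuous_exp.continuousAt.continuousWithinAt).eventually_lt_const h1
  have h3 : ∀ᶠ v in 𝓝[>] u, FF v = FF u := by
    filter_upwards [h2, self_mem_nhdsWithin] with v hv hv'
    have h4 : ⌊Real.exp v⌋₊ = ⌊Real.exp u⌋₊ := by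
      apply le_antisymm
      · refine Nat.lt_succ_iff.1 ((Nat.floor_lt (Real.exp_pos v).le).2 ?_)
        push_cast
        exact hv
      · exact Nat.floor_mono (Real.exp_le_exp.2 (le_of_lt hv'))
    unfold FF
    rw [h4]
  exact (tendsto_const_nhds (x := FF u)).congr' (h3.mono fun v hv => hv.symm)

/-- **S_F** -/
theorem s_f (hPNT : S_PNT) (hLD : S_LD) : S_F := by
  obtain ⟨K, C5, hK, hC5, hB, hD⟩ := equation hPNT hLD
  obtain ⟨κ, C, hC, hF⟩ := calc_core hK hC5 FF_measurable FF_int (fun u _ => FF_rc u) hB hD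
  -- integrability
  have hI1 : IntegrableOn (fun u : ℝ => u ^ (-(1 / 2) : ℝ)) (Set.Ioc 0 1) := by
    rw [← intervalIntegrable_iff_integrableOn_Ioc_of_le zero_le_one]
    exact intervalIntegral.intervalIntegrable_rpow' (by norm_num)
  have hI2 : IntegrableOn FF (Set.Ioc 0 1) := by
    rw [← intervalIntegrable_iff_integrableOn_Ioc_of_le zero_le_one]
    exact FF_int 0 1
  set E : ℝ → ℝ := fun u => FF u - κ * u ^ (-(1 / 2) : ℝ) with hE
  have hEm : Measurable E := by
    have := FF_measurable
    fun_prop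
  have hI3 : IntegrableOn E (Set.Ioi 0) := by
    rw [← Set.Ioc_union_Ioi_eq_Ioi zero_le_one]
    refine (hI2.sub (hI1.const_mul κ)).union ?_
    have h1 : IntegrableOn (fun u : ℝ => C * u ^ (-(3 / 2) : ℝ)) (Set.Ioi 1) :=
      (integrableOn_Ioi_rpow_of_lt (by norm_num) one_pos).const_mul C
    refine h1.mono' hEm.aestronglyMeasurable ?_
    rw [ae_restrict_iff' measurableSet_Ioi]
    exact Eventually.of_forall fun u hu => hF u (le_of_lt hu)
  set C0 : ℝ := ∫ u in Set.Ioi (0 : ℝ), |E u| with hC0
  -- the transform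
  have key : ∀ s : ℝ, 0 < s → |DS (dA (-(1 / 2))) s - κ * √Real.pi * √s| ≤ C0 * s := by
    intro s hs
    have hexp : ∀ u ∈ Set.Ioi (0 : ℝ), |Real.exp (-(s * u))| ≤ 1 := by
      intro u hu
      rw [abs_of_pos (Real.exp_pos _)]
      exact Real.exp_le_one_iff.2 (by have := mul_pos hs hu; linarith)
    have hG : ∫ u in Set.Ioi (0 : ℝ), u ^ (-(1 / 2) : ℝ) * Real.exp (-(s * u)) =
        √Real.pi / √s := by
      have h1 := Real.integral_rpow_mul_exp_neg_mul_Ioi (a := 1 / 2) (r := s) (by norm_num) hs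
      rw [Real.Gamma_one_half_eq, ← Real.sqrt_eq_rpow, Real.sqrt_div zero_le_one,
        Real.sqrt_one] at h1
      rw [show (1 / 2 : ℝ) - 1 = -(1 / 2) by norm_num] at h1
      rw [h1]
      ring
    have hI4 : IntegrableOn (fun u : ℝ => u ^ (-(1 / 2) : ℝ) * Real.exp (-(s * u)))
        (Set.Ioi 0) := by
      refine Integrable.of_integral_ne_zero ?_
      rw [hG]
      have := Real.pi_pos
      positivity
    have hI5 : IntegrableOn (fun u : ℝ => E u * Real.exp (-(s * u))) (Set.Ioi 0) := by
      refine hI3.abs.mono' (hEm.mul (by fun_prop)).aestronglyMeasurable ?_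
      rw [ae_restrict_iff' measurableSet_Ioi]
      refine Eventually.of_forall fun u hu => ?_
      rw [Real.norm_eq_abs, abs_mul]
      exact mul_le_of_le_one_right (abs_nonneg _) (hexp u hu)
    have h1 : ∫ u in Set.Ioi (0 : ℝ), FF u * Real.exp (-(s * u)) =
        (∫ u in Set.Ioi (0 : ℝ), E u * Real.exp (-(s * u))) + κ * (√Real.pi / √s) := by
      rw [← hG, ← integral_const_mul, ← integral_add hI5 (hI4.const_mul κ)]
      refine integral_congr_ae (Eventually.of_forall fun u => ?_)
      simp only [hE]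
      ring
    have h2 : DS (dA (-(1 / 2))) s - κ * √Real.pi * √s =
        s * ∫ u in Set.Ioi (0 : ℝ), E u * Real.exp (-(s * u)) := by
      rw [laplace hs, h1]
      have h3 : √s * √s = s := Real.mul_self_sqrt hs.le
      have h4 : √s ≠ 0 := (Real.sqrt_pos.2 hs).ne'
      have h5 : s * (κ * (√Real.pi / √s)) = κ * √Real.pi * √s := by
        nth_rewrite 1 [← h3]
        field_simp
      rw [mul_add, h5]
      ring
    have h3 : |∫ u in Set.Ioi (0 : ℝ), E u * Real.exp (-(s * u))| ≤ C0 := by
      refine (abs_integral_le_integral_abs).trans ?_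
      refine setIntegral_mono_on hI5.abs hI3.abs measurableSet_Ioi fun u hu => ?_
      rw [abs_mul]
      exact mul_le_of_le_one_right (abs_nonneg _) (hexp u hu)
    rw [h2, abs_mul, abs_of_pos hs, mul_comm]
    exact mul_le_mul_of_nonneg_right h3 hs.le
  -- the constant
  have hκ : κ * √Real.pi = 1 := by
    have h1 : Tendsto (fun x : ℝ => DS (dA (-(1 / 2))) (1 / x) * √x - κ * √Real.pi) atTop
        (𝓝 (1 - κ * √Real.pi)) := ds_tendsto.sub_const _
    have h2 : Tendsto (fun x : ℝ => C0 * (1 / √x)) atTop (𝓝 0) := by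
      have h3 : Tendsto (fun x : ℝ => 1 / √x) atTop (𝓝 0) :=
        tendsto_const_nhds.div_atTop Real.tendsto_sqrt_atTop
      simpa using h3.const_mul C0
    have h4 : Tendsto (fun x : ℝ => DS (dA (-(1 / 2))) (1 / x) * √x - κ * √Real.pi) atTop
        (𝓝 0) := by
      refine squeeze_zero_norm' ?_ h2
      filter_upwards [eventually_gt_atTop 0] with x hx
      have h5 := key (1 / x) (by positivity)
      have hsx : 0 < √x := Real.sqrt_pos.2 hx
      have e1 : √(1 / x) = 1 / √x := by
        rw [Real.sqrt_div zero_le_one, Real.sqrt_one]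
      rw [e1] at h5
      have e2 : DS (dA (-(1 / 2))) (1 / x) * √x - κ * √Real.pi =
          (DS (dA (-(1 / 2))) (1 / x) - κ * √Real.pi * (1 / √x)) * √x := by
        field_simp
      rw [Real.norm_eq_abs, e2, abs_mul, abs_of_pos hsx]
      refine (mul_le_mul_of_nonneg_right h5 hsx.le).trans (le_of_eq ?_)
      have h6 : √x * √x = x := Real.mul_self_sqrt hx.le
      field_simp
      rw [sq, h6]
    have := tendsto_nhds_unique h1 h4
    linarith
  refine ⟨C + 1, by positivity, fun u hu => ?_⟩
  have hu0 : 0 < u := by linarith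
  have hpi := Real.pi_pos
  have h1 : κ * u ^ (-(1 / 2) : ℝ) = 1 / √(Real.pi * u) := by
    have h2 : κ = 1 / √Real.pi := by
      rw [eq_div_iff (Real.sqrt_pos.2 hpi).ne', hκ]
    rw [h2, Real.rpow_neg hu0.le, ← Real.sqrt_eq_rpow, Real.sqrt_mul hpi.le]
    field_simp
  rw [← h1]
  refine (hF u hu).trans (mul_le_mul_of_nonneg_right (by linarith) (Real.rpow_nonneg hu0.le _))

end

end Pool.Agent.L7h47.DP
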