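import Pool.Agent.L7h11.DP.Stm
import Pool.Agent.L7h47.DP.Qu3
import Pool.Agent.H306R2.Arith

set_option autoImplicit false

/-!
# The coefficients of `ζ^(-1/2)`: arithmetic
-/

namespace Pool.Agent.L7h47.DP

open Finset Filter Topology MeasureTheory
open Pool.Agent.L7h11.DP
open Pool.Agent.H306R2 (lc dv dA dA_apply dA_mul dA_zero dA_one lc_nonneg dv_one zR dv_nonneg)

noncomputable section

/-- multiplication by the logarithm -/
def DL (f : ArithmeticFunction ℝ) : ArithmeticFunction ℝ :=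
  ⟨fun n => f n * Real.log n, by simp⟩

theorem DL_apply (f : ArithmeticFunction ℝ) (n : ℕ) : DL f n = f n * Real.log n := rfl

theorem DL_mul (f g : ArithmeticFunction ℝ) : DL (f * g) = DL f * g + f * DL g := by
  ext n
  rw [DL_apply, ArithmeticFunction.add_apply, ArithmeticFunction.mul_apply,
    ArithmeticFunction.mul_apply, ArithmeticFunction.mul_apply, sum_mul, ← sum_add_distrib]
  refine sum_congr rfl fun x hx => ?_
  obtain ⟨h1, h2⟩ := Nat.mem_divisorsAntidiagonal.1 hx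
  have hx1 : x.1 ≠ 0 := fun h => h2 (by rw [← h1, h, zero_mul])
  have hx2 : x.2 ≠ 0 := fun h => h2 (by rw [← h1, h, mul_zero])
  rw [DL_apply, DL_apply, ← h1, Nat.cast_mul,
    Real.log_mul (Nat.cast_ne_zero.2 hx1) (Nat.cast_ne_zero.2 hx2)]
  ring

theorem DL_one : DL 1 = 0 := by
  ext n
  rw [DL_apply]
  by_cases h : n = 1
  · subst h
    simp
  · rw [ArithmeticFunction.one_apply_ne h]
    simp

theorem DL_zR : DL zR = ArithmeticFunction.vonMangoldt * zR := by
  have h := ArithmeticFunction.vonMangoldt_mul_zeta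
  rw [zR, h]
  ext n
  rw [DL_apply, ArithmeticFunction.natCoe_apply, ArithmeticFunction.zeta_apply,
    ArithmeticFunction.log_apply]
  split_ifs with h0
  · subst h0
    simp
  · simp

theorem DL_f : DL (dA (-(1 / 2))) + DL (dA (-(1 / 2))) =
    -(ArithmeticFunction.vonMangoldt * dA (-(1 / 2))) := by
  set f := dA (-(1 / 2)) with hf
  set h := dA (1 / 2) with hh
  have h1 : h * f = 1 := by
    rw [hh, hf, dA_mul, show (1 / 2 : ℝ) + -(1 / 2) = 0 by norm_num, dA_zero]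
  have h2 : h * h = zR := by
    rw [hh, dA_mul, show (1 / 2 : ℝ) + 1 / 2 = 1 by norm_num, dA_one]
  have h3 : DL h * h + h * DL h = ArithmeticFunction.vonMangoldt * (h * h) := by
    rw [← DL_mul, h2, DL_zR]
  have h4 : DL f * h + f * DL h = 0 := by
    rw [← DL_mul, mul_comm f h, h1, DL_one]
  have h5 : DL f = -(f * f * DL h) := by
    calc DL f = (DL f * h) * f := by rw [mul_assoc, h1, mul_one]
      _ = (-(f * DL h)) * f := by rw [eq_neg_of_add_eq_zero_left h4]
      _ = -(f * f * DL h) := by ring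
  have h6 : DL h + DL h = ArithmeticFunction.vonMangoldt * h := by
    calc DL h + DL h = (DL h * h + h * DL h) * f := by
          rw [show (DL h * h + h * DL h) * f = (DL h + DL h) * (h * f) by ring, h1, mul_one]
      _ = ArithmeticFunction.vonMangoldt * h * (h * f) := by rw [h3]; ring
      _ = _ := by rw [h1, mul_one]
  calc DL f + DL f = -(f * f * (DL h + DL h)) := by rw [h5]; ring
    _ = -(ArithmeticFunction.vonMangoldt * f * (h * f)) := by rw [h6]; ring
    _ = _ := by rw [h1, mul_one]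

/-- the differential equation -/
theorem fc_log (n : ℕ) : fc n * Real.log n =
    -(1 / 2) * ∑ x ∈ n.divisorsAntidiagonal, ArithmeticFunction.vonMangoldt x.1 * fc x.2 := by
  have h := DFunLike.congr_fun DL_f n
  rw [ArithmeticFunction.add_apply, DL_apply, ArithmeticFunction.neg_apply,
    ArithmeticFunction.mul_apply] at h
  have h2 : dA (-(1 / 2)) n = fc n := rfl
  have h3 : ∑ x ∈ n.divisorsAntidiagonal, ArithmeticFunction.vonMangoldt x.1 *
      dA (-(1 / 2)) x.2 = ∑ x ∈ n.divisorsAntidiagonal,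
        ArithmeticFunction.vonMangoldt x.1 * fc x.2 := rfl
  rw [h2, h3] at h
  linarith

theorem abs_lc (m : ℕ) : |lc (-(1 / 2)) m| ≤ lc (1 / 2) m := by
  unfold lc
  rw [abs_prod]
  refine prod_le_prod (fun _ _ => abs_nonneg _) fun i _ => ?_
  rw [abs_div, abs_of_pos (show (0 : ℝ) < (i : ℝ) + 1 by positivity)]
  refine div_le_div_of_nonneg_right ?_ (by positivity)
  have : (0 : ℝ) ≤ i := Nat.cast_nonneg i
  exact abs_le.2 ⟨by linarith, by linarith⟩

theorem abs_fc (n : ℕ) : |fc n| ≤ dv (1 / 2) n := by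
  unfold fc dv
  split_ifs with h
  · simp
  · rw [Finsupp.prod, Finsupp.prod, abs_prod]
    exact prod_le_prod (fun _ _ => abs_nonneg _) fun _ _ => abs_lc _

theorem dv_half_le (n : ℕ) : dv (1 / 2) n ≤ 1 := by
  refine (Pool.Agent.H306R2.dv_mono (by norm_num) (show (1 / 2 : ℝ) ≤ 1 by norm_num) n).trans ?_
  unfold dv
  split_ifs with h
  · norm_num
  · rw [Finsupp.prod, prod_congr rfl fun p _ => Pool.Agent.H306R2.lc_one_left _, prod_const_one]

theorem fc_zero : fc 0 = 0 := by simp [fc, dv]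

/-- sums of convolutions -/
theorem sum_conv_eq (N : ℕ) (F G : ℕ → ℝ) :
    ∑ d ∈ Icc 1 N, ∑ x ∈ d.divisorsAntidiagonal, F x.1 * G x.2 =
      ∑ b ∈ Icc 1 N, G b * ∑ a ∈ Icc 1 (N / b), F a := by
  have h1 : ∀ d ∈ Icc 1 N, ∑ x ∈ d.divisorsAntidiagonal, F x.1 * G x.2 =
      ∑ x ∈ Icc 1 N ×ˢ Icc 1 N, if x.1 * x.2 = d then F x.1 * G x.2 else 0 := by
    intro d hd
    rw [← sum_filter]
    refine sum_congr ?_ fun _ _ => rfl
    ext ⟨x, y⟩
    have hd1 : 1 ≤ d := (mem_Icc.1 hd).1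
    have hd2 : d ≤ N := (mem_Icc.1 hd).2
    simp only [Nat.mem_divisorsAntidiagonal, mem_filter, mem_product, mem_Icc]
    constructor
    · rintro ⟨rfl, -⟩
      have hx : 0 < x := Nat.pos_of_ne_zero fun h => by simp [h] at hd1
      have hy : 0 < y := Nat.pos_of_ne_zero fun h => by simp [h] at hd1
      exact ⟨⟨⟨hx, (Nat.le_mul_of_pos_right x hy).trans hd2⟩,
        ⟨hy, (Nat.le_mul_of_pos_left y hx).trans hd2⟩⟩, rfl⟩
    · rintro ⟨-, rfl⟩
      exact ⟨rfl, by omega⟩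
  rw [sum_congr rfl h1, sum_comm, sum_product_right]
  refine sum_congr rfl fun b hb => ?_
  have hb1 : 1 ≤ b := (mem_Icc.1 hb).1
  rw [mul_sum]
  have h2 : Icc 1 (N / b) ⊆ Icc 1 N := Icc_subset_Icc_right (Nat.div_le_self _ _)
  rw [← sum_subset h2 (f := fun a => ∑ d ∈ Icc 1 N, if a * b = d then F a * G b else 0)]
  · refine sum_congr rfl fun a ha => ?_
    have ha1 : 1 ≤ a := (mem_Icc.1 ha).1
    have ha2 : a * b ≤ N := (Nat.le_div_iff_mul_le hb1).1 (mem_Icc.1 ha).2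
    rw [sum_ite_eq, if_pos (mem_Icc.2 ⟨Nat.mul_pos ha1 hb1, ha2⟩), mul_comm]
  · intro a ha ha'
    rw [sum_ite_eq, if_neg]
    intro h
    exact ha' (mem_Icc.2 ⟨(mem_Icc.1 ha).1, (Nat.le_div_iff_mul_le hb1).2 (mem_Icc.1 h).2⟩)

/-- the summatory function of `Λ(n)/n` -/
def PP (v : ℝ) : ℝ := ∑ a ∈ Icc 1 ⌊Real.exp v⌋₊, ArithmeticFunction.vonMangoldt a / a

/-- the logarithmic sum -/
theorem sum_log (u : ℝ) : ∑ b ∈ Icc 1 ⌊Real.exp u⌋₊, fc b / b * Real.log b =
    -(1 / 2) * ∑ b ∈ Icc 1 ⌊Real.exp u⌋₊, fc b / b * PP (u - Real.log b) := by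
  have h1 : ∀ n ∈ Icc 1 ⌊Real.exp u⌋₊, fc n / n * Real.log n =
      -(1 / 2) * ∑ x ∈ n.divisorsAntidiagonal,
        (ArithmeticFunction.vonMangoldt x.1 / (x.1 : ℝ)) * (fc x.2 / (x.2 : ℝ)) := by
    intro n _
    have h2 : fc n / n * Real.log n = (fc n * Real.log n) / n := by ring
    rw [h2, fc_log, mul_div_assoc, sum_div]
    congr 1
    refine sum_congr rfl fun x hx => ?_
    obtain ⟨h1, -⟩ := Nat.mem_divisorsAntidiagonal.1 hx
    rw [← h1, Nat.cast_mul, div_mul_div_comm]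
  rw [sum_congr rfl h1, ← mul_sum, sum_conv_eq _
    (fun a => ArithmeticFunction.vonMangoldt a / (a : ℝ)) (fun b => fc b / (b : ℝ))]
  congr 1
  refine sum_congr rfl fun b hb => ?_
  have hb1 : 1 ≤ b := (mem_Icc.1 hb).1
  have hb0 : (0 : ℝ) < b := by exact_mod_cast hb1
  have e : ⌊Real.exp u⌋₊ / b = ⌊Real.exp (u - Real.log b)⌋₊ := by
    rw [Real.exp_sub, Real.exp_log hb0, Nat.floor_div_natCast]
  rw [e]
  rfl

/-- Mertens' sum -/
theorem pp_bound (hPNT : S_PNT) : ∃ g C : ℝ, 0 ≤ C ∧ ∀ v : ℝ, 0 ≤ v →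
    |PP v - (v - g)| ≤ C / (1 + v) ^ 2 := by
  obtain ⟨g, C, h⟩ := hPNT
  refine ⟨g, 4 * |C| + 4, by positivity, fun v hv => ?_⟩
  set N := ⌊Real.exp v⌋₊ with hN
  have hN1 : 1 ≤ N := by
    rw [hN, Nat.one_le_floor_iff]
    exact Real.one_le_exp hv
  have hN0 : (0 : ℝ) < N := by exact_mod_cast hN1
  have hN1' : (1 : ℝ) ≤ N := by exact_mod_cast hN1
  have h1 : (N : ℝ) ≤ Real.exp v := Nat.floor_le (Real.exp_pos v).le
  have h2 : Real.exp v < N + 1 := Nat.lt_floor_add_one _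
  have h3 : Real.log N ≤ v := by
    rw [Real.log_le_iff_le_exp hN0]
    exact h1
  have h4 : v - Real.log N ≤ 1 / N := by
    have h5 := Real.log_le_sub_one_of_pos (div_pos (Real.exp_pos v) hN0)
    rw [Real.log_div (Real.exp_pos v).ne' hN0.ne', Real.log_exp] at h5
    refine h5.trans ?_
    rw [div_sub_one hN0.ne', div_le_div_iff_of_pos_right hN0]
    linarith
  have h5 : (1 : ℝ) / N ≤ 4 / (1 + v) ^ 2 := by
    have h6 : 1 + v + v ^ 2 / 2 ≤ Real.exp v := Real.quadratic_le_exp_of_nonneg hv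
    rw [div_le_div_iff₀ hN0 (by positivity)]
    nlinarith
  have h6 : (1 : ℝ) / N ≤ 1 := by
    rw [div_le_one hN0]
    exact hN1'
  have h7 : 0 ≤ Real.log N := Real.log_natCast_nonneg N
  have h8 : C / (1 + Real.log N) ^ 2 ≤ 4 * |C| / (1 + v) ^ 2 := by
    have h9 : (1 + v) ^ 2 ≤ 4 * (1 + Real.log N) ^ 2 := by nlinarith
    calc C / (1 + Real.log N) ^ 2 ≤ |C| / (1 + Real.log N) ^ 2 :=
          div_le_div_of_nonneg_right (le_abs_self _) (by positivity)
      _ ≤ 4 * |C| / (1 + v) ^ 2 := by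
          rw [div_le_div_iff₀ (by positivity) (by positivity)]
          have := mul_le_mul_of_nonneg_left h9 (abs_nonneg C)
          linarith
  have h9 : |PP v - (Real.log N - g)| ≤ 4 * |C| / (1 + v) ^ 2 := (h N hN1).trans h8
  calc |PP v - (v - g)| = |(PP v - (Real.log N - g)) + (Real.log N - v)| := by ring_nf
    _ ≤ |PP v - (Real.log N - g)| + |Real.log N - v| := abs_add_le _ _
    _ ≤ 4 * |C| / (1 + v) ^ 2 + 4 / (1 + v) ^ 2 := by
        refine add_le_add h9 ?_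
        rw [abs_of_nonpos (by linarith)]
        linarith
    _ = _ := by ring

end

end Pool.Agent.L7h47.DP
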