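import Pool.Agent.L7h47.DP.F1

set_option autoImplicit false

/-!
# The coefficients of `ζ^(-1/2)`: the equation for `F`
-/

namespace Pool.Agent.L7h47.DP

open Finset Filter Topology MeasureTheory
open Pool.Agent.L7h11.DP
open Pool.Agent.H306R2 (dv dv_nonneg)

noncomputable section

/-- `d_{1/2}(b)/b` -/
def ah (b : ℕ) : ℝ := dv (1 / 2) b / b

theorem ah_nonneg (b : ℕ) : 0 ≤ ah b := div_nonneg (dv_nonneg (by norm_num) b) (Nat.cast_nonneg b)

/-- grouping by the integer part of the logarithm -/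
theorem grp {C : ℝ} (hLD : ∀ j M : ℕ,
    ∑ m ∈ (Icc 1 M).filter (fun m : ℕ => (j : ℝ) ≤ Real.log m ∧ Real.log m < j + 1),
      dv (1 / 2) m / m ≤ C / √(1 + j)) {u : ℝ} (w : ℕ → ℝ)
    (W : ℕ → ℝ) (hW : ∀ j, 0 ≤ W j)
    (hwW : ∀ j b : ℕ, j ≤ ⌊u⌋₊ → 1 ≤ b → Real.log b ≤ u → (j : ℝ) ≤ Real.log b →
      Real.log b < j + 1 → w b ≤ W j) :
    ∑ b ∈ Icc 1 ⌊Real.exp u⌋₊, ah b * w b ≤ ∑ j ∈ range (⌊u⌋₊ + 1), C / √(1 + j) * W j := by
  have hmaps : ∀ b ∈ Icc 1 ⌊Real.exp u⌋₊, ⌊Real.log b⌋₊ ∈ range (⌊u⌋₊ + 1) := by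
    intro b hb
    have hb1 : 1 ≤ b := (mem_Icc.1 hb).1
    have hb2 : Real.log b ≤ u := (le_exp_iff hb1 _).1 (mem_Icc.1 hb).2
    exact mem_range.2 (Nat.lt_succ_of_le (Nat.floor_mono hb2))
  rw [← sum_fiberwise_of_maps_to hmaps]
  refine sum_le_sum fun j hj => ?_
  have hj' : j ≤ ⌊u⌋₊ := Nat.lt_succ_iff.1 (mem_range.1 hj)
  have hf : (Icc 1 ⌊Real.exp u⌋₊).filter (fun b : ℕ => ⌊Real.log b⌋₊ = j) =
      (Icc 1 ⌊Real.exp u⌋₊).filter
        (fun m : ℕ => (j : ℝ) ≤ Real.log m ∧ Real.log m < j + 1) := by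
    refine filter_congr fun b _ => ?_
    exact Nat.floor_eq_iff (Real.log_natCast_nonneg b)
  rw [hf]
  calc ∑ b ∈ (Icc 1 ⌊Real.exp u⌋₊).filter
        (fun m : ℕ => (j : ℝ) ≤ Real.log m ∧ Real.log m < j + 1), ah b * w b
      ≤ ∑ b ∈ (Icc 1 ⌊Real.exp u⌋₊).filter
        (fun m : ℕ => (j : ℝ) ≤ Real.log m ∧ Real.log m < j + 1), ah b * W j := by
        refine sum_le_sum fun b hb => mul_le_mul_of_nonneg_left ?_ (ah_nonneg b)
        obtain ⟨hb1, hb2, hb3⟩ := mem_filter.1 hb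
        have hb4 : 1 ≤ b := (mem_Icc.1 hb1).1
        exact hwW j b hj' hb4 ((le_exp_iff hb4 _).1 (mem_Icc.1 hb1).2) hb2 hb3
    _ = (∑ b ∈ (Icc 1 ⌊Real.exp u⌋₊).filter
        (fun m : ℕ => (j : ℝ) ≤ Real.log m ∧ Real.log m < j + 1), ah b) * W j := by
        rw [sum_mul]
    _ ≤ _ := mul_le_mul_of_nonneg_right (hLD j _) (hW j)

theorem sum_inv_sqrt (n : ℕ) : ∑ j ∈ range n, 1 / √(1 + (j : ℝ)) ≤ 2 * √n := by
  induction n with
  | zero => simp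
  | succ n ih =>
    rw [sum_range_succ]
    have h1 : 0 < √(1 + (n : ℝ)) := Real.sqrt_pos.2 (by positivity)
    have h2 : √(1 + (n : ℝ)) ^ 2 = 1 + n := Real.sq_sqrt (by positivity)
    have h3 : √(n : ℝ) ^ 2 = n := Real.sq_sqrt (by positivity)
    have h4 : 0 ≤ √(n : ℝ) := Real.sqrt_nonneg _
    have h5 : √(n : ℝ) ≤ √(1 + (n : ℝ)) := Real.sqrt_le_sqrt (by linarith)
    have h6 : 1 / √(1 + (n : ℝ)) ≤ 2 * (√(1 + (n : ℝ)) - √(n : ℝ)) := by
      rw [div_le_iff₀ h1]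
      nlinarith
    rw [Nat.cast_succ, add_comm (n : ℝ) 1]
    linarith

/-- the a priori bound -/
theorem ah_sum {C : ℝ} (hC : 0 ≤ C) (hLD : ∀ j M : ℕ,
    ∑ m ∈ (Icc 1 M).filter (fun m : ℕ => (j : ℝ) ≤ Real.log m ∧ Real.log m < j + 1),
      dv (1 / 2) m / m ≤ C / √(1 + j)) {u : ℝ} (hu : 0 ≤ u) :
    ∑ b ∈ Icc 1 ⌊Real.exp u⌋₊, ah b ≤ 2 * C * √(1 + u) := by
  have h := grp hLD (u := u) (fun _ => 1) (fun _ => 1) (fun _ => zero_le_one)
    fun _ _ _ _ _ _ _ => le_rfl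
  simp only [mul_one] at h
  refine h.trans ?_
  have h1 : ∑ j ∈ range (⌊u⌋₊ + 1), C / √(1 + (j : ℝ)) =
      C * ∑ j ∈ range (⌊u⌋₊ + 1), 1 / √(1 + (j : ℝ)) := by
    rw [mul_sum]
    exact sum_congr rfl fun j _ => by ring
  rw [h1]
  have h2 := sum_inv_sqrt (⌊u⌋₊ + 1)
  have h3 : √((⌊u⌋₊ + 1 : ℕ) : ℝ) ≤ √(1 + u) := by
    refine Real.sqrt_le_sqrt ?_
    have := Nat.floor_le hu
    push_cast
    linarith
  calc _ ≤ C * (2 * √((⌊u⌋₊ + 1 : ℕ) : ℝ)) := mul_le_mul_of_nonneg_left h2 hC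
    _ ≤ C * (2 * √(1 + u)) := mul_le_mul_of_nonneg_left (by linarith) hC
    _ = _ := by ring

theorem summable_q : Summable fun i : ℕ => √(1 + (i : ℝ)) / (1 + (i : ℝ)) ^ 2 := by
  have h := (summable_nat_add_iff 1).2
    (Real.summable_nat_rpow.2 (show (-(3 / 2) : ℝ) < -1 by norm_num))
  refine h.congr fun i => ?_
  have hi : (0 : ℝ) < 1 + (i : ℝ) := by positivity
  rw [Nat.cast_succ, add_comm (i : ℝ) 1, Real.sqrt_eq_rpow, ← Real.rpow_natCast,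
    ← Real.rpow_sub hi]
  norm_num

/-- the convolution bound -/
theorem conv_bound (J : ℕ) : ∑ j ∈ range (J + 1), 1 / √(1 + (j : ℝ)) *
    (1 / (1 + ((J : ℝ) - j)) ^ 2) ≤
      (∑' i : ℕ, √(1 + (i : ℝ)) / (1 + (i : ℝ)) ^ 2) / √(1 + (J : ℝ)) := by
  have h0 : 0 < √(1 + (J : ℝ)) := Real.sqrt_pos.2 (by positivity)
  have h1 : ∑ j ∈ range (J + 1), 1 / √(1 + (j : ℝ)) * (1 / (1 + ((J : ℝ) - j)) ^ 2) =
      ∑ i ∈ range (J + 1), 1 / √(1 + ((J : ℝ) - i)) * (1 / (1 + (i : ℝ)) ^ 2) := by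
    rw [← sum_range_reflect]
    refine sum_congr rfl fun i hi => ?_
    have hi' : i ≤ J := Nat.lt_succ_iff.1 (mem_range.1 hi)
    have : ((J + 1 - 1 - i : ℕ) : ℝ) = (J : ℝ) - i := by
      rw [Nat.add_sub_cancel, Nat.cast_sub hi']
    rw [this]
    congr 3
    ring
  rw [h1, le_div_iff₀ h0, sum_mul]
  refine (sum_le_sum fun i hi => ?_).trans
    (summable_q.sum_le_tsum (range (J + 1)) fun i _ => by positivity)
  have hi' : (i : ℝ) ≤ J := by exact_mod_cast Nat.lt_succ_iff.1 (mem_range.1 hi)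
  have hp : 0 < 1 + ((J : ℝ) - i) := by linarith
  have h2 : √(1 + (J : ℝ)) ≤ √(1 + ((J : ℝ) - i)) * √(1 + (i : ℝ)) := by
    rw [← Real.sqrt_mul hp.le]
    refine Real.sqrt_le_sqrt ?_
    have : (0 : ℝ) ≤ i := Nat.cast_nonneg i
    nlinarith
  have h3 : 0 < √(1 + ((J : ℝ) - i)) := Real.sqrt_pos.2 hp
  rw [div_mul_div_comm, one_mul, div_mul_eq_mul_div, one_mul, div_le_div_iff₀ (by positivity)
    (by positivity)]
  have := mul_le_mul_of_nonneg_right h2 (show (0 : ℝ) ≤ (1 + (i : ℝ)) ^ 2 by positivity)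
  linarith

/-- the error term -/
theorem ah_conv {C : ℝ} (hC : 0 ≤ C) (hLD : ∀ j M : ℕ,
    ∑ m ∈ (Icc 1 M).filter (fun m : ℕ => (j : ℝ) ≤ Real.log m ∧ Real.log m < j + 1),
      dv (1 / 2) m / m ≤ C / √(1 + j)) : ∃ C' : ℝ, 0 ≤ C' ∧ ∀ u : ℝ, 1 ≤ u →
    ∑ b ∈ Icc 1 ⌊Real.exp u⌋₊, ah b * (1 / (1 + (u - Real.log b)) ^ 2) ≤
      C' * u ^ (-(1 / 2) : ℝ) := by
  set Q := ∑' i : ℕ, √(1 + (i : ℝ)) / (1 + (i : ℝ)) ^ 2 with hQ
  have hQ0 : 0 ≤ Q := tsum_nonneg fun i => by positivity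
  refine ⟨4 * C * Q, by positivity, fun u hu => ?_⟩
  have hu0 : 0 ≤ u := by linarith
  set J := ⌊u⌋₊ with hJ
  have hJu : (J : ℝ) ≤ u := Nat.floor_le hu0
  have h := grp hLD (u := u) (fun b => 1 / (1 + (u - Real.log b)) ^ 2)
    (fun j => 4 * (1 / (1 + ((J : ℝ) - j)) ^ 2)) (fun j => by positivity) (by
      intro j b hj hb1 hb2 hb3 hb4
      have hj' : (j : ℝ) ≤ J := by exact_mod_cast hj
      have h1 : 1 + ((J : ℝ) - j) ≤ 2 * (1 + (u - Real.log b)) := by linarith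
      have h2 : 0 < 1 + ((J : ℝ) - j) := by linarith
      have h3 : 0 < 1 + (u - Real.log b) := by linarith
      change 1 / (1 + (u - Real.log b)) ^ 2 ≤ 4 * (1 / (1 + ((J : ℝ) - j)) ^ 2)
      rw [mul_one_div, div_le_div_iff₀ (by positivity) (by positivity)]
      nlinarith)
  refine h.trans ?_
  have h1 : ∑ j ∈ range (J + 1), C / √(1 + (j : ℝ)) * (4 * (1 / (1 + ((J : ℝ) - j)) ^ 2)) =
      4 * C * ∑ j ∈ range (J + 1), 1 / √(1 + (j : ℝ)) * (1 / (1 + ((J : ℝ) - j)) ^ 2) := by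
    rw [mul_sum]
    exact sum_congr rfl fun j _ => by ring
  rw [h1]
  have h2 : Q / √(1 + (J : ℝ)) ≤ Q * u ^ (-(1 / 2) : ℝ) := by
    rw [div_eq_mul_inv]
    refine mul_le_mul_of_nonneg_left ?_ hQ0
    rw [Real.rpow_neg hu0, ← Real.sqrt_eq_rpow]
    refine inv_anti₀ (Real.sqrt_pos.2 (by linarith)) (Real.sqrt_le_sqrt ?_)
    have := Nat.lt_floor_add_one u
    linarith
  calc _ ≤ 4 * C * (Q / √(1 + (J : ℝ))) :=
        mul_le_mul_of_nonneg_left (conv_bound J) (by positivity)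
    _ ≤ 4 * C * (Q * u ^ (-(1 / 2) : ℝ)) := mul_le_mul_of_nonneg_left h2 (by positivity)
    _ = _ := by ring

/-- `G` -/
theorem G_eq {u : ℝ} (hu : 0 ≤ u) : ∫ v in (0 : ℝ)..u, FF v =
    ∑ b ∈ Icc 1 ⌊Real.exp u⌋₊, fc b / b * (u - Real.log b) :=
  (sum_eq_int (fun b => fc b / b) hu).symm

/-- **The equation.** -/
theorem equation (hPNT : S_PNT) (hLD : S_LD) : ∃ K C5 : ℝ, 0 ≤ K ∧ 0 ≤ C5 ∧
    (∀ u : ℝ, 0 ≤ u → |FF u| ≤ C5 * √(1 + u)) ∧
    ∀ u : ℝ, 1 ≤ u → |u * FF u - (∫ v in (0 : ℝ)..u, FF v) / 2| ≤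
      K * (|FF u| + u ^ (-(1 / 2) : ℝ)) := by
  obtain ⟨C, hC, hL⟩ := hLD
  obtain ⟨g, C2, hC2, hP⟩ := pp_bound hPNT
  obtain ⟨C', hC', hA⟩ := ah_conv hC.le hL
  refine ⟨|g| / 2 + C2 * C', 2 * C, by positivity, by positivity, fun u hu => ?_, fun u hu => ?_⟩
  · refine le_trans ?_ (ah_sum hC.le hL hu)
    unfold FF
    refine (abs_sum_le_sum_abs _ _).trans (sum_le_sum fun b _ => ?_)
    rw [abs_div, Nat.abs_cast]
    exact div_le_div_of_nonneg_right (abs_fc b) (Nat.cast_nonneg b)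
  · have hu0 : 0 ≤ u := by linarith
    set s := Icc 1 ⌊Real.exp u⌋₊ with hs
    have h1 : u * FF u = (∫ v in (0 : ℝ)..u, FF v) + ∑ b ∈ s, fc b / b * Real.log b := by
      rw [G_eq hu0, ← sum_add_distrib]
      unfold FF
      rw [mul_sum]
      exact sum_congr rfl fun b _ => by ring
    have h2 : ∑ b ∈ s, fc b / b * PP (u - Real.log b) = (∫ v in (0 : ℝ)..u, FF v) - g * FF u +
        ∑ b ∈ s, fc b / b * (PP (u - Real.log b) - (u - Real.log b - g)) := by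
      rw [G_eq hu0]
      unfold FF
      rw [mul_sum, ← sum_sub_distrib, ← sum_add_distrib]
      exact sum_congr rfl fun b _ => by ring
    have h3 : |∑ b ∈ s, fc b / b * (PP (u - Real.log b) - (u - Real.log b - g))| ≤
        C2 * (C' * u ^ (-(1 / 2) : ℝ)) := by
      refine (abs_sum_le_sum_abs _ _).trans ?_
      calc ∑ b ∈ s, |fc b / b * (PP (u - Real.log b) - (u - Real.log b - g))|
          ≤ ∑ b ∈ s, C2 * (ah b * (1 / (1 + (u - Real.log b)) ^ 2)) := by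
            refine sum_le_sum fun b hb => ?_
            have hb1 : 1 ≤ b := (mem_Icc.1 hb).1
            have hb2 : Real.log b ≤ u := (le_exp_iff hb1 _).1 (mem_Icc.1 hb).2
            have h4 := hP (u - Real.log b) (by linarith)
            have h5 : |fc b / b| ≤ ah b := by
              rw [abs_div, Nat.abs_cast]
              exact div_le_div_of_nonneg_right (abs_fc b) (Nat.cast_nonneg b)
            rw [abs_mul]
            calc |fc b / b| * |PP (u - Real.log b) - (u - Real.log b - g)|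
                ≤ ah b * (C2 / (1 + (u - Real.log b)) ^ 2) :=
                  mul_le_mul h5 h4 (abs_nonneg _) (ah_nonneg b)
              _ = _ := by ring
        _ = C2 * ∑ b ∈ s, ah b * (1 / (1 + (u - Real.log b)) ^ 2) := by rw [mul_sum]
        _ ≤ _ := mul_le_mul_of_nonneg_left (hA u hu) hC2
    have h4 : u * FF u - (∫ v in (0 : ℝ)..u, FF v) / 2 = g / 2 * FF u -
        1 / 2 * ∑ b ∈ s, fc b / b * (PP (u - Real.log b) - (u - Real.log b - g)) := by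
      rw [h1, hs, sum_log, ← hs, h2]
      ring
    rw [h4]
    have h5 : 0 ≤ u ^ (-(1 / 2) : ℝ) := Real.rpow_nonneg hu0 _
    have h6 : 0 ≤ |FF u| := abs_nonneg _
    have h7 : 0 ≤ |g| := abs_nonneg g
    calc |g / 2 * FF u -
          1 / 2 * ∑ b ∈ s, fc b / b * (PP (u - Real.log b) - (u - Real.log b - g))|
        ≤ |g / 2 * FF u| +
          |1 / 2 * ∑ b ∈ s, fc b / b * (PP (u - Real.log b) - (u - Real.log b - g))| :=
          abs_sub _ _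
      _ = |g| / 2 * |FF u| +
          1 / 2 * |∑ b ∈ s, fc b / b * (PP (u - Real.log b) - (u - Real.log b - g))| := by
          rw [abs_mul, abs_mul, abs_div, abs_of_pos (show (0 : ℝ) < 2 by norm_num),
            abs_of_pos (show (0 : ℝ) < 1 / 2 by norm_num)]
      _ ≤ |g| / 2 * |FF u| + 1 * (C2 * (C' * u ^ (-(1 / 2) : ℝ))) := by
          have := abs_nonneg
            (∑ b ∈ s, fc b / b * (PP (u - Real.log b) - (u - Real.log b - g)))
          linarith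
      _ ≤ _ := by
          have h8 : 0 ≤ |g| * u ^ (-(1 / 2) : ℝ) := by positivity
          have h9 : 0 ≤ C2 * C' * |FF u| := by positivity
          nlinarith

end

end Pool.Agent.L7h47.DP
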