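import Pool.Agent.L7h11.DP.Stm

set_option autoImplicit false

/-!
# The quadratic form: pointwise bounds
-/

namespace Pool.Agent.L7h47.DP

open Finset Filter Topology MeasureTheory
open Pool.Agent.L7h11.DP

noncomputable section

theorem KK_pos (d : ℕ) : 0 < KK d := by
  unfold KK
  refine prod_pos fun p _ => ?_
  have : (0 : ℝ) ≤ (p : ℝ) ^ (-(3 / 4) : ℝ) := Real.rpow_nonneg (Nat.cast_nonneg _) _
  linarith

theorem BB_eq (d : ℕ) {u v : ℝ} (h : v ≤ u) :
    BB d v = ∑ m ∈ Icc 1 ⌊Real.exp u⌋₊, fc (d * m) / m * √(v - Real.log m) := by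
  unfold BB
  refine sum_subset (Icc_subset_Icc_right (Nat.floor_mono (Real.exp_le_exp.2 h))) ?_
  intro m hm hm'
  have h1 : 1 ≤ m := (mem_Icc.1 hm).1
  have h2 : ⌊Real.exp v⌋₊ < m := by
    by_contra hcon
    exact hm' (mem_Icc.2 ⟨h1, not_lt.1 hcon⟩)
  have h3 : Real.exp v < m := (Nat.floor_lt (Real.exp_pos v).le).1 h2
  have h4 : v < Real.log m := by
    rw [Real.lt_log_iff_exp_lt (by exact_mod_cast h1)]
    exact h3
  rw [Real.sqrt_eq_zero_of_nonpos (by linarith), mul_zero]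

theorem BB_contOn (d : ℕ) (u : ℝ) : ContinuousOn (BB d) (Set.Iic u) := by
  have h : ContinuousOn (fun v : ℝ => ∑ m ∈ Icc 1 ⌊Real.exp u⌋₊, fc (d * m) / m *
      √(v - Real.log m)) (Set.Iic u) := by
    refine Continuous.continuousOn ?_
    fun_prop
  exact h.congr fun v hv => BB_eq d hv

theorem BB_int (d : ℕ) (u : ℝ) (hu : 0 ≤ u) : IntervalIntegrable (BB d) volume 0 u := by
  refine ((BB_contOn d u).mono ?_).intervalIntegrable
  rw [Set.uIcc_of_le hu]
  exact fun x hx => hx.2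

theorem BB_zero (d : ℕ) : BB d 0 = 0 := by
  unfold BB
  rw [Real.exp_zero, Nat.floor_one, Icc_self, sum_singleton]
  simp

/-- bounds for `λ_d` and `B_d` -/
theorem bounds (hBD : S_BD) : ∃ C1 : ℝ, 0 < C1 ∧ ∀ d : ℕ, 1 ≤ d →
    |√Real.pi / 2 * lam d| ≤ C1 * KK d ∧ ∀ u : ℝ, 0 ≤ u → |BB d u| ≤ C1 * KK d := by
  obtain ⟨C, hC, h⟩ := hBD 1 one_pos
  refine ⟨2 * (1 + C), by positivity, fun d hd => ?_⟩
  have hK := KK_pos d
  have h1 : |√Real.pi / 2 * lam d| ≤ (1 + C) * KK d := by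
    have := h d hd 0 le_rfl
    rw [BB_zero, zero_sub, abs_neg, zero_div, neg_zero, Real.exp_zero, mul_one] at this
    linarith
  refine ⟨h1.trans (by nlinarith), fun u hu => ?_⟩
  have h2 := h d hd u hu
  have h3 : Real.exp (-(u / 4)) ≤ 1 := Real.exp_le_one_iff.2 (by linarith)
  have h4 : KK d * (1 + C * Real.exp (-(u / 4))) ≤ (1 + C) * KK d := by
    have : C * Real.exp (-(u / 4)) ≤ C * 1 := mul_le_mul_of_nonneg_left h3 hC.le
    nlinarith
  calc |BB d u| = |(BB d u - √Real.pi / 2 * lam d) + √Real.pi / 2 * lam d| := by ring_nf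
    _ ≤ |BB d u - √Real.pi / 2 * lam d| + |√Real.pi / 2 * lam d| := abs_add_le _ _
    _ ≤ (1 + C) * KK d + (1 + C) * KK d := add_le_add (h2.trans h4) h1
    _ = 2 * (1 + C) * KK d := by ring

/-- the integral of `B_d` -/
theorem int_bound {d : ℕ} {a K ε C : ℝ} (hK : 0 ≤ K) (hC : 0 ≤ C)
    (h : ∀ u : ℝ, 0 ≤ u → |BB d u - a| ≤ K * (ε + C * Real.exp (-(u / 4)))) {u : ℝ}
    (hu : 0 ≤ u) : |(∫ v in (0 : ℝ)..u, BB d v) - a * u| ≤ K * (ε * u + 4 * C) := by
  have h1 : (∫ v in (0 : ℝ)..u, BB d v) - a * u = ∫ v in (0 : ℝ)..u, (BB d v - a) := by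
    rw [intervalIntegral.integral_sub (BB_int d u hu) intervalIntegrable_const,
      intervalIntegral.integral_const]
    simp [mul_comm]
  have hc : Continuous fun v : ℝ => K * (ε + C * Real.exp (-(v / 4))) := by fun_prop
  have h2 : |∫ v in (0 : ℝ)..u, (BB d v - a)| ≤
      ∫ v in (0 : ℝ)..u, K * (ε + C * Real.exp (-(v / 4))) := by
    refine (intervalIntegral.abs_integral_le_integral_abs hu).trans ?_
    refine intervalIntegral.integral_mono_on hu ?_ (hc.intervalIntegrable _ _)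
      fun v hv => h v hv.1
    exact ((BB_int d u hu).sub intervalIntegrable_const).abs
  have h3 : (∫ v in (0 : ℝ)..u, K * (ε + C * Real.exp (-(v / 4)))) =
      K * (ε * u + 4 * C * (1 - Real.exp (-(u / 4)))) := by
    have hd : ∀ x ∈ Set.uIcc 0 u, HasDerivAt
        (fun v : ℝ => K * (ε * v + 4 * C * (1 - Real.exp (-(v / 4)))))
        (K * (ε + C * Real.exp (-(x / 4)))) x := by
      intro x _
      have e1 : HasDerivAt (fun v : ℝ => Real.exp (-(v / 4))) (Real.exp (-(x / 4)) * -(1 / 4)) x :=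
        ((hasDerivAt_id x).div_const 4).neg.exp
      have e2 := (((hasDerivAt_id x).const_mul ε).add
        ((e1.const_sub 1).const_mul (4 * C))).const_mul K
      refine e2.congr_deriv ?_
      ring
    rw [intervalIntegral.integral_eq_sub_of_hasDerivAt hd (hc.intervalIntegrable _ _)]
    simp
  rw [h1]
  refine h2.trans ?_
  rw [h3]
  refine mul_le_mul_of_nonneg_left ?_ hK
  have := Real.exp_pos (-(u / 4))
  nlinarith

/-- **The main pointwise bound.** -/
theorem point {B I a K C1 ε C u Z : ℝ} (hK : 0 ≤ K) (hC : 0 ≤ C) (hε : 0 ≤ ε) (hC1 : 0 ≤ C1)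
    (hu : 0 ≤ u) (huZ : u ≤ Z) (ha : |a| ≤ C1 * K) (hB : |B| ≤ C1 * K)
    (hBa : |B - a| ≤ K * (ε + C * Real.exp (-(u / 4))))
    (hI : |I - a * u| ≤ K * (ε * u + 4 * C)) :
    (Z - 2 * u) * B ^ 2 + 3 * B * I ≤ a ^ 2 * (Z + u) +
      C1 * K ^ 2 * (8 * Z * ε + 2 * Z * C * Real.exp (-(u / 4)) + 24 * C) := by
  set E := Real.exp (-(u / 4)) with hE
  have hE0 : 0 < E := Real.exp_pos _
  have hZ0 : 0 ≤ Z := hu.trans huZ
  -- the square
  have h1 : |B ^ 2 - a ^ 2| ≤ 2 * C1 * K ^ 2 * (ε + C * E) := by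
    have : B ^ 2 - a ^ 2 = (B - a) * (B + a) := by ring
    rw [this, abs_mul]
    calc |B - a| * |B + a| ≤ (K * (ε + C * E)) * (C1 * K + C1 * K) :=
          mul_le_mul hBa ((abs_add_le _ _).trans (add_le_add hB ha)) (abs_nonneg _) (by positivity)
      _ = 2 * C1 * K ^ 2 * (ε + C * E) := by ring
  have h2 : (Z - 2 * u) * B ^ 2 ≤ (Z - 2 * u) * a ^ 2 + Z * (2 * C1 * K ^ 2 * (ε + C * E)) := by
    have h3 : |Z - 2 * u| ≤ Z := abs_le.2 ⟨by linarith, by linarith⟩
    have h4 : (Z - 2 * u) * (B ^ 2 - a ^ 2) ≤ Z * (2 * C1 * K ^ 2 * (ε + C * E)) := by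
      refine (le_abs_self _).trans ?_
      rw [abs_mul]
      exact mul_le_mul h3 h1 (abs_nonneg _) hZ0
    linarith
  -- `u e^(-u/4) ≤ 4`
  have hue : u * E ≤ 4 := by
    have h5 : u / 4 + 1 ≤ Real.exp (u / 4) := Real.add_one_le_exp _
    have h6 : E * Real.exp (u / 4) = 1 := by
      rw [hE, ← Real.exp_add]
      simp
    nlinarith
  have h7 : B * I ≤ a ^ 2 * u + C1 * K ^ 2 * (2 * ε * u + 8 * C) := by
    have e : B * I = a ^ 2 * u + (B * (I - a * u) + a * u * (B - a)) := by ring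
    rw [e]
    have h8 : B * (I - a * u) ≤ (C1 * K) * (K * (ε * u + 4 * C)) := by
      refine (le_abs_self _).trans ?_
      rw [abs_mul]
      exact mul_le_mul hB hI (abs_nonneg _) (by positivity)
    have h9 : a * u * (B - a) ≤ (C1 * K) * u * (K * (ε + C * E)) := by
      refine (le_abs_self _).trans ?_
      rw [abs_mul, abs_mul, abs_of_nonneg hu]
      exact mul_le_mul (mul_le_mul_of_nonneg_right ha hu) hBa (abs_nonneg _) (by positivity)
    have h10 : (C1 * K) * u * (K * (ε + C * E)) = C1 * K ^ 2 * (ε * u + C * (u * E)) := by ring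
    have h11 : C1 * K ^ 2 * (ε * u + C * (u * E)) ≤ C1 * K ^ 2 * (ε * u + C * 4) := by
      refine mul_le_mul_of_nonneg_left ?_ (by positivity)
      have := mul_le_mul_of_nonneg_left hue hC
      linarith
    have h12 : (C1 * K) * (K * (ε * u + 4 * C)) + C1 * K ^ 2 * (ε * u + C * 4) =
        C1 * K ^ 2 * (2 * ε * u + 8 * C) := by ring
    linarith
  have h13 : C1 * K ^ 2 * (6 * ε * u) ≤ C1 * K ^ 2 * (6 * ε * Z) :=
    mul_le_mul_of_nonneg_left (mul_le_mul_of_nonneg_left huZ (by positivity)) (by positivity)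
  nlinarith

end

end Pool.Agent.L7h47.DP
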