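import Pool.Agent.L7h47.DP.Qu1

set_option autoImplicit false

/-!
# The quadratic form: the part with von Mangoldt's function
-/

namespace Pool.Agent.L7h47.DP

open Finset Filter Topology MeasureTheory
open Pool.Agent.L7h11.DP

noncomputable section

theorem fac_le {p : ℕ} (hp : 2 ≤ p) : 1 / 2 + 3 * (p : ℝ) ^ (-(3 / 4) : ℝ) ≤ 3 := by
  have hp' : (2 : ℝ) ≤ p := by exact_mod_cast hp
  have h1 : (p : ℝ) ^ (-(3 / 4) : ℝ) ≤ (2 : ℝ) ^ (-(3 / 4) : ℝ) :=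
    Real.rpow_le_rpow_of_nonpos (by norm_num) hp' (by norm_num)
  have h2 : (2 : ℝ) ^ (-(3 / 4) : ℝ) ≤ 5 / 6 := by
    rw [Real.rpow_neg (by norm_num)]
    have h3 : (6 / 5 : ℝ) ≤ (2 : ℝ) ^ (3 / 4 : ℝ) := by
      have h4 : ((6 / 5 : ℝ) ^ (4 : ℕ)) ≤ 2 ^ (3 : ℕ) := by norm_num
      have h5 : (2 : ℝ) ^ (3 / 4 : ℝ) = ((2 : ℝ) ^ (3 : ℕ)) ^ (1 / 4 : ℝ) := by
        rw [← Real.rpow_natCast, ← Real.rpow_mul (by norm_num)]
        norm_num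
      have h6 : (6 / 5 : ℝ) = ((6 / 5 : ℝ) ^ (4 : ℕ)) ^ (1 / 4 : ℝ) := by
        rw [← Real.rpow_natCast, ← Real.rpow_mul (by norm_num)]
        norm_num
      rw [h5, h6]
      exact Real.rpow_le_rpow (by norm_num) h4 (by norm_num)
    calc ((2 : ℝ) ^ (3 / 4 : ℝ))⁻¹ ≤ (6 / 5 : ℝ)⁻¹ := inv_anti₀ (by norm_num) h3
      _ = 5 / 6 := by norm_num
  linarith

theorem KK_mul {x y : ℕ} (hy : 1 ≤ y) (hx : ArithmeticFunction.vonMangoldt x ≠ 0) :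
    KK (x * y) ≤ 3 * KK y := by
  have hpp : IsPrimePow x := by
    by_contra hcon
    exact hx (by rw [ArithmeticFunction.vonMangoldt_apply, if_neg hcon])
  obtain ⟨p, k, hp, hk, rfl⟩ := hpp
  have hp' : p.Prime := hp.nat_prime
  have hK := KK_pos y
  have h0 : (p ^ k).primeFactors = {p} := Nat.primeFactors_prime_pow hk.ne' hp'
  have h1 : (p ^ k * y).primeFactors = insert p y.primeFactors := by
    rw [Nat.primeFactors_mul (pow_pos hp'.pos k).ne' (by omega), h0]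
    rfl
  unfold KK at hK ⊢
  rw [h1]
  by_cases hpy : p ∈ y.primeFactors
  · rw [insert_eq_of_mem hpy]
    linarith
  · rw [prod_insert hpy]
    exact mul_le_mul_of_nonneg_right (fac_le hp'.two_le) hK.le

theorem sum_conv_le (N : ℕ) (F G : ℕ → ℝ) (hF : ∀ n, 0 ≤ F n) (hG : ∀ n, 0 ≤ G n) :
    ∑ d ∈ Icc 1 N, ∑ x ∈ d.divisorsAntidiagonal, F x.1 * G x.2 ≤
      (∑ n ∈ Icc 1 N, F n) * ∑ n ∈ Icc 1 N, G n := by
  have h1 : ∀ d ∈ Icc 1 N, ∑ x ∈ d.divisorsAntidiagonal, F x.1 * G x.2 =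
      ∑ x ∈ Icc 1 N ×ˢ Icc 1 N, if x.1 * x.2 = d then F x.1 * G x.2 else 0 := by
    intro d hd
    rw [← sum_filter]
    refine sum_congr ?_ fun _ _ => rfl
    ext ⟨x, y⟩
    have hd1 : 1 ≤ d := (mem_Icc.1 hd).1
    have hd2 : d ≤ N := (mem_Icc.1 hd).2
    simp only [Nat.mem_divisorsAntidiagonal, mem_filter, mem_product, mem_Icc]
    constructor
    · rintro ⟨rfl, -⟩
      have hx : 0 < x := Nat.pos_of_ne_zero fun h => by simp [h] at hd1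
      have hy : 0 < y := Nat.pos_of_ne_zero fun h => by simp [h] at hd1
      exact ⟨⟨⟨hx, (Nat.le_mul_of_pos_right x hy).trans hd2⟩,
        ⟨hy, (Nat.le_mul_of_pos_left y hx).trans hd2⟩⟩, rfl⟩
    · rintro ⟨-, rfl⟩
      exact ⟨rfl, by omega⟩
  have h2 : (∑ n ∈ Icc 1 N, F n) * ∑ n ∈ Icc 1 N, G n =
      ∑ x ∈ Icc 1 N ×ˢ Icc 1 N, F x.1 * G x.2 := by
    rw [sum_mul_sum, sum_product]
  rw [sum_congr rfl h1, sum_comm, h2]
  refine sum_le_sum (N := ℝ) fun x _ => ?_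
  rw [sum_ite_eq]
  split_ifs
  · exact le_rfl
  · exact mul_nonneg (hF _) (hG _)

theorem vm_bound (n : ℕ) : ArithmeticFunction.vonMangoldt n / (n : ℝ) ^ 2 ≤
    2 * (n : ℝ) ^ (-(3 / 2) : ℝ) := by
  rcases Nat.eq_zero_or_pos n with rfl | hn
  · simp
  have hn' : (0 : ℝ) < n := by exact_mod_cast hn
  have h1 : ArithmeticFunction.vonMangoldt n ≤ 2 * (n : ℝ) ^ (1 / 2 : ℝ) := by
    refine ArithmeticFunction.vonMangoldt_le_log.trans ?_
    have := Real.log_le_rpow_div hn'.le (show (0 : ℝ) < 1 / 2 by norm_num)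
    linarith
  rw [div_le_iff₀ (by positivity)]
  refine h1.trans (le_of_eq ?_)
  rw [mul_assoc, ← Real.rpow_natCast, ← Real.rpow_add hn']
  norm_num

theorem exists_vm : ∃ C : ℝ, 0 ≤ C ∧ ∀ N : ℕ,
    ∑ n ∈ Icc 1 N, ArithmeticFunction.vonMangoldt n / (n : ℝ) ^ 2 ≤ C := by
  have hs : Summable fun n : ℕ => 2 * (n : ℝ) ^ (-(3 / 2) : ℝ) :=
    (Real.summable_nat_rpow.2 (by norm_num)).mul_left 2
  have h0 : ∀ n : ℕ, 0 ≤ 2 * (n : ℝ) ^ (-(3 / 2) : ℝ) := fun n => by positivity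
  refine ⟨∑' n : ℕ, 2 * (n : ℝ) ^ (-(3 / 2) : ℝ), tsum_nonneg h0, fun N => ?_⟩
  exact (sum_le_sum fun n _ => vm_bound n).trans (hs.sum_le_tsum _ fun n _ => h0 n)

/-- the part with von Mangoldt's function -/
theorem lphi_bound : ∃ C : ℝ, 0 ≤ C ∧ ∀ N : ℕ,
    ∑ d ∈ Icc 1 N, Lphi d / (d : ℝ) ^ 2 * KK d ^ 2 ≤
      C * ∑ d ∈ Icc 1 N, (Nat.totient d : ℝ) / (d : ℝ) ^ 2 * KK d ^ 2 := by
  obtain ⟨C, hC, h⟩ := exists_vm
  refine ⟨9 * C, by positivity, fun N => ?_⟩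
  have h1 : ∀ d ∈ Icc 1 N, Lphi d / (d : ℝ) ^ 2 * KK d ^ 2 ≤
      ∑ x ∈ d.divisorsAntidiagonal, (ArithmeticFunction.vonMangoldt x.1 / (x.1 : ℝ) ^ 2) *
        (9 * ((Nat.totient x.2 : ℝ) / (x.2 : ℝ) ^ 2 * KK x.2 ^ 2)) := by
    intro d hd
    unfold Lphi
    rw [sum_div, sum_mul]
    refine sum_le_sum fun x hx => ?_
    obtain ⟨hx1, hx2⟩ := Nat.mem_divisorsAntidiagonal.1 hx
    have hL : 0 ≤ ArithmeticFunction.vonMangoldt x.1 := ArithmeticFunction.vonMangoldt_nonneg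
    rcases hL.eq_or_lt with h0 | h0
    · rw [← h0]
      simp
    have hy : 1 ≤ x.2 := Nat.pos_of_ne_zero fun h => by
      rw [h, mul_zero] at hx1
      exact hx2 hx1.symm
    have hk := KK_mul hy h0.ne'
    have hk2 : KK d ^ 2 ≤ 9 * KK x.2 ^ 2 := by
      rw [← hx1]
      have := KK_pos (x.1 * x.2)
      nlinarith [KK_pos x.2]
    have e : (d : ℝ) = (x.1 : ℝ) * x.2 := by exact_mod_cast hx1.symm
    calc ArithmeticFunction.vonMangoldt x.1 * (Nat.totient x.2 : ℝ) / (d : ℝ) ^ 2 * KK d ^ 2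
        ≤ ArithmeticFunction.vonMangoldt x.1 * (Nat.totient x.2 : ℝ) / (d : ℝ) ^ 2 *
          (9 * KK x.2 ^ 2) := mul_le_mul_of_nonneg_left hk2 (by positivity)
      _ = _ := by
        rw [e, mul_pow]
        ring
  refine (sum_le_sum h1).trans ?_
  refine (sum_conv_le N (fun n => ArithmeticFunction.vonMangoldt n / (n : ℝ) ^ 2)
    (fun n => 9 * ((Nat.totient n : ℝ) / (n : ℝ) ^ 2 * KK n ^ 2))
    (fun n => div_nonneg ArithmeticFunction.vonMangoldt_nonneg (by positivity))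
    fun n => by positivity).trans ?_
  rw [← mul_sum]
  have h2 : 0 ≤ ∑ d ∈ Icc 1 N, (Nat.totient d : ℝ) / (d : ℝ) ^ 2 * KK d ^ 2 :=
    sum_nonneg fun d _ => by positivity
  calc _ ≤ C * (9 * ∑ d ∈ Icc 1 N, (Nat.totient d : ℝ) / (d : ℝ) ^ 2 * KK d ^ 2) :=
        mul_le_mul_of_nonneg_right (h N) (by positivity)
    _ = _ := by ring

theorem Lphi_nonneg (d : ℕ) : 0 ≤ Lphi d :=
  sum_nonneg fun _ _ => mul_nonneg ArithmeticFunction.vonMangoldt_nonneg (Nat.cast_nonneg _)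

end

end Pool.Agent.L7h47.DP
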